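import Pool.Agent.H23.BG.TargetsP
import Pool.Agent.H39.DW.DI

/-!
# Counting functions of points near one: product formula, measurability, invariance
-/

set_option autoImplicit false

open NumberField NumberField.InfinitePlace NumberField.Units
  NumberField.Units.dirichletUnitTheorem MeasureTheory Set Filter Complex
open scoped nonZeroDivisors ENNReal

namespace Pool.Agent.H23.BG.FM

open Pool.Agent.H25.HK Pool.Agent.H23.LB Pool.Agent.H23.LC Pool.Agent.H29.DW
open Pool.Agent.H61.GLB (countable_K yM_add yM_cont yM_unit eM mem_unit)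
open Pool.Agent.H39.DW (lint_prod rot_pos)

open scoped Classical in
/-- the indicator function of a small disc around one -/
noncomputable def ind (H : ℝ) (w : ℂ) : ℝ≥0∞ := if H * ‖w - 1‖ ≤ 1 / 8 then 1 else 0

theorem ind_meas (H : ℝ) : Measurable (ind H) := by
  unfold ind
  refine Measurable.ite ?_ measurable_const measurable_const
  exact measurableSet_le (by fun_prop) measurable_const

/-- the measure of the angles near one -/
noncomputable def fb (r : Bool) (H : ℝ) (a : ℝ) : ℝ≥0∞ :=
  ∫⁻ θ in Icc (0 : ℝ) (2 * Real.pi), ind H ((a : ℂ) * aq r θ)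

theorem fb_meas (r : Bool) (H : ℝ) : Measurable (fb r H) := by
  unfold fb
  have h1 : Measurable (fun q : ℝ × ℝ => (q.1 : ℂ) * aq r q.2) :=
    (Complex.measurable_ofReal.comp measurable_fst).mul ((measurable_aq r).comp measurable_snd)
  exact ((ind_meas H).comp h1).lintegral_prod_right'

section NF

variable {K : Type} [Field K] [NumberField K]

open scoped Classical in
/-- the indicator function of the points near one -/
noncomputable def tm (H : InfinitePlace K → ℝ) (x : K) (y : InfinitePlace K → ℝ)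
    (ω : InfinitePlace K → ℂ) : ℝ≥0∞ :=
  if ∀ v : InfinitePlace K, H v * ‖wv v x y ω - 1‖ ≤ 1 / 8 then 1 else 0

theorem tm_eq (H : InfinitePlace K → ℝ) (x : K) (y : InfinitePlace K → ℝ)
    (ω : InfinitePlace K → ℂ) : tm H x y ω = ∏ v, ind (H v) (wv v x y ω) := by
  classical
  unfold tm
  by_cases h : ∀ v : InfinitePlace K, H v * ‖wv v x y ω - 1‖ ≤ 1 / 8
  · rw [if_pos h]
    symm
    refine Finset.prod_eq_one fun v _ => ?_
    unfold ind
    rw [if_pos (h v)]
  · rw [if_neg h]
    push Not at h
    obtain ⟨v, hv⟩ := h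
    symm
    refine Finset.prod_eq_zero (Finset.mem_univ v) ?_
    unfold ind
    rw [if_neg (not_le.2 hv)]

theorem nn_eq (M : FI K) (H : InfinitePlace K → ℝ) (y : InfinitePlace K → ℝ)
    (ω : InfinitePlace K → ℂ) : nn K M H y ω = ∑' x : {x : K // x ∈ M}, tm H x.1 y ω := rfl

theorem tm_meas {Ω : Type} [MeasurableSpace Ω] (H : InfinitePlace K → ℝ) (x : K)
    (Y : Ω → InfinitePlace K → ℝ) (hY : ∀ v, Measurable (fun u => Y u v))
    (Θ : Ω → InfinitePlace K → ℝ) (hΘ : ∀ v, Measurable (fun u => Θ u v)) :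
    Measurable (fun u => tm H x (Y u) (om true (Θ u))) := by
  simp only [tm_eq]
  refine Finset.measurable_fun_prod _ fun v _ => (ind_meas (H v)).comp ?_
  unfold wv om
  simp only [an_eq, if_true]
  refine Measurable.mul (Measurable.mul measurable_const ?_) ((measurable_aq _).comp (hΘ v))
  exact Complex.measurable_ofReal.comp (Real.measurable_exp.comp ((hY v).div_const 2))

theorem ang_int (H : InfinitePlace K → ℝ) (x : K) (y : InfinitePlace K → ℝ) :
    ∫⁻ θ in An K, tm H x y (om true θ) =
      ∏ v, fb (rv v) (H v) (v x * Real.exp (y v / 2)) := by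
  set h : InfinitePlace K → ℝ → ℝ≥0∞ := fun v t => ind (H v)
    (v.embedding x * ((Real.exp (y v / 2) : ℝ) : ℂ) * aq (rv v) t) with hh
  have h1 : ∀ θ : InfinitePlace K → ℝ, tm H x y (om true θ) = ∏ v, h v (θ v) := by
    intro θ
    rw [tm_eq]
    refine Finset.prod_congr rfl fun v _ => ?_
    rw [hh]
    simp only [wv, om, an_eq, if_true]
  have hm : ∀ v, Measurable (h v) := by
    intro v
    rw [hh]
    exact (ind_meas (H v)).comp ((measurable_aq (rv v)).const_mul _)
  rw [lintegral_congr h1]
  unfold An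
  rw [volume_pi, Measure.restrict_pi_pi, lint_prod _ h hm]
  refine Finset.prod_congr rfl fun v _ => ?_
  have hn : ‖v.embedding x * ((Real.exp (y v / 2) : ℝ) : ℂ)‖ = v x * Real.exp (y v / 2) := by
    rw [norm_mul, Complex.norm_real, Real.norm_eq_abs, abs_of_pos (Real.exp_pos _),
      InfinitePlace.norm_embedding_eq]
  have hr : Rl (rv v) (v.embedding x * ((Real.exp (y v / 2) : ℝ) : ℂ)) := by
    have := Rl_wv v x y (ω := fun _ => 1) ⟨fun _ => by simp, fun _ _ => by simp⟩
    unfold wv at this
    rwa [mul_one] at this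
  unfold fb
  rw [← hn, ← rot_pos (ind (H v)) (rv v) _ hr]

/-- the integral over the angles of the counting function -/
noncomputable def gg (M : FI K) (H : InfinitePlace K → ℝ) (q : logSpace K × ℝ) : ℝ≥0∞ :=
  ∑' x : {x : K // x ∈ M}, ∏ v, fb (rv v) (H v) (v (x : K) * Real.exp (yM K M q.2 q.1 v / 2))

theorem gg_eq (M : FI K) (H : InfinitePlace K → ℝ) (z : logSpace K) (τ : ℝ) :
    ∫⁻ θ in An K, nn K M H (yM K M τ z) (om true θ) = gg M H (z, τ) := by
  have := countable_K K
  have hm : ∀ x : {x : K // x ∈ M}, Measurable (fun θ : InfinitePlace K → ℝ =>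
      tm H x.1 (yM K M τ z) (om true θ)) := fun x =>
    tm_meas H x.1 (fun _ => yM K M τ z) (fun _ => measurable_const)
      (fun θ => θ) (fun v => measurable_pi_apply v)
  simp only [nn_eq]
  rw [lintegral_tsum fun x => (hm x).aemeasurable]
  unfold gg
  exact tsum_congr fun x => ang_int H _ _

open scoped Classical in
theorem gg_meas (M : FI K) (H : InfinitePlace K → ℝ) : Measurable (gg M H) := by
  have := countable_K K
  unfold gg
  refine Measurable.tsum fun x => ?_
  refine Finset.measurable_fun_prod _ fun v _ => ?_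
  refine (fb_meas _ _).comp ?_
  have h1 : Continuous (fun q : logSpace K × ℝ => yM K M q.2 q.1 v) :=
    (continuous_apply v).comp (yM_cont K M)
  exact (continuous_const.mul (Real.continuous_exp.comp (h1.div_const 2))).measurable

open scoped Classical in
theorem gg_unit (M : FI K) (H : InfinitePlace K → ℝ) (z : logSpace K) (τ : ℝ) (l : logSpace K)
    (hl : l ∈ unitLattice K) : gg M H (z + l, τ) = gg M H (z, τ) := by
  obtain ⟨u, -, rfl⟩ := hl
  change gg M H (z + logEmbedding K (Additive.ofMul (Additive.toMul u)), τ) = _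
  unfold gg
  rw [← (eM K M (Additive.toMul u)).tsum_eq (fun x : {x : K // x ∈ M} =>
    ∏ v, fb (rv v) (H v) (v (x : K) * Real.exp (yM K M τ z v / 2)))]
  refine tsum_congr fun x => ?_
  refine Finset.prod_congr rfl fun v _ => ?_
  congr 1
  have h2 : v ((Additive.toMul u : (𝓞 K)ˣ) : K) ≠ 0 := by
    rw [Ne, map_eq_zero]
    simp
  have h3 : 0 < v ((Additive.toMul u : (𝓞 K)ˣ) : K) :=
    lt_of_le_of_ne (apply_nonneg _ _) (Ne.symm h2)
  change _ = v (((Additive.toMul u : (𝓞 K)ˣ) : K) * x.1) * Real.exp (yM K M τ z v / 2)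
  rw [yM_unit, map_mul, add_div, mul_div_cancel_left₀ _ two_ne_zero, Real.exp_add,
    Real.exp_log h3]
  ring

end NF

end Pool.Agent.H23.BG.FM
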