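import Pool.Agent.H19.BG.FMa

/-!
# The sum of the multiplicities over the residue classes
-/

set_option autoImplicit false

open NumberField NumberField.InfinitePlace NumberField.Units
  NumberField.Units.dirichletUnitTheorem MeasureTheory Set Filter Complex
open scoped nonZeroDivisors ENNReal

namespace Pool.Agent.H23.BG.FM

open Pool.Agent.H25.HK Pool.Agent.H23.LB Pool.Agent.H23.LC Pool.Agent.H29.DW
open Pool.Agent.H61.GLB (countable_K yM_add yM_cont)
open Pool.Agent.H28.RC (Rep)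

section NF

variable {K : Type} [Field K] [NumberField K]

theorem smul_mem (L : FI K) (s : 𝓞 K) {x : K} (hx : x ∈ L) : (s : K) * x ∈ L := by
  have h : (s • x : K) ∈ (L : Submodule (𝓞 K) K) := Submodule.smul_mem _ _ hx
  rw [Algebra.smul_def] at h
  exact h

theorem add_mem' (L : FI K) {x y : K} (hx : x ∈ L) (hy : y ∈ L) : x + y ∈ L :=
  Submodule.add_mem (L : Submodule (𝓞 K) K) hx hy

theorem sub_mem' (L : FI K) {x y : K} (hx : x ∈ L) (hy : y ∈ L) : x - y ∈ L :=
  Submodule.sub_mem (L : Submodule (𝓞 K) K) hx hy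

theorem mul_mem' (f : Ideal (𝓞 K)) (M : FI K) {t : 𝓞 K} {x : K} (ht : t ∈ f) (hx : x ∈ M) :
    (t : K) * x ∈ (f : FI K) * M :=
  FractionalIdeal.mul_mem_mul (FractionalIdeal.mem_coeIdeal_of_mem _ ht) hx

/-- an inverse of `a` modulo `f` -/
theorem exists_inv {f : Ideal (𝓞 K)} {a : ℕ} (h : Ideal.span {(a : 𝓞 K)} ⊔ f = ⊤) :
    ∃ s t : 𝓞 K, t ∈ f ∧ s * a + t = 1 := by
  have h1 : (1 : 𝓞 K) ∈ Ideal.span {(a : 𝓞 K)} ⊔ f := by
    rw [h]
    exact Submodule.mem_top
  obtain ⟨u, hu, t, ht, hut⟩ := Submodule.mem_sup.1 h1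
  obtain ⟨s, rfl⟩ := Ideal.mem_span_singleton'.1 hu
  exact ⟨s, t, ht, hut⟩

theorem inv_K {a : ℕ} {s t : 𝓞 K} (h : s * a + t = 1) : (s : K) * (a : K) + (t : K) = 1 := by
  have := congrArg (algebraMap (𝓞 K) K) h
  rw [map_add, map_mul, map_natCast, map_one] at this
  exact this

theorem castK (a : ℕ) : ((a : 𝓞 K) : K) = (a : K) := map_natCast (algebraMap (𝓞 K) K) a

theorem rep_mul {f : Ideal (𝓞 K)} {M : FI K} {X : Finset K} (hX : Rep K f M X) {a : ℕ}
    (h : Ideal.span {(a : 𝓞 K)} ⊔ f = ⊤) {x : K} (hx : x ∈ M) :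
    ∃! r, r ∈ X ∧ x - (a : K) * r ∈ (f : FI K) * M := by
  obtain ⟨s, t, ht, hst⟩ := exists_inv h
  have hst' := inv_K hst
  obtain ⟨r, ⟨hr, hr2⟩, huniq⟩ := hX.2 ((s : K) * x) (smul_mem M s hx)
  refine ⟨r, ⟨hr, ?_⟩, ?_⟩
  · have e : x - (a : K) * r = ((a : 𝓞 K) : K) * ((s : K) * x - r) + (t : K) * x := by
      rw [castK]
      linear_combination (-x) * hst'
    rw [e]
    exact add_mem' _ (smul_mem _ _ hr2) (mul_mem' f M ht hx)
  · rintro r' ⟨hr', hr2'⟩
    refine huniq r' ⟨hr', ?_⟩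
    have e : (s : K) * x - r' = (s : K) * (x - (a : K) * r') - (t : K) * r' := by
      linear_combination r' * hst'
    rw [e]
    exact sub_mem' _ (smul_mem _ _ hr2') (mul_mem' f M ht (hX.1 r' hr'))

open scoped Classical in
theorem nu_eq (f : Ideal (𝓞 K)) (M : FI K) (H : InfinitePlace K → ℝ) (a : ℕ)
    (y : InfinitePlace K → ℝ) (ω : InfinitePlace K → ℂ) (r : K) :
    nu K f M H a y ω r = ∑' x : {x : K // x ∈ M},
      (if x.1 - (a : K) * r ∈ (f : FI K) * M then 1 else 0) *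
        tm H x.1 (fun v => y v - 2 * Real.log a) ω := by
  unfold nu tm
  refine tsum_congr fun x => ?_
  by_cases h1 : x.1 - (a : K) * r ∈ (f : FI K) * M
  · simp only [h1, true_and, if_true, one_mul]
  · simp only [h1, false_and, if_false, zero_mul]

open scoped Classical in
theorem nu_sum {f : Ideal (𝓞 K)} {M : FI K} {X : Finset K} (hX : Rep K f M X)
    (H : InfinitePlace K → ℝ) {a : ℕ} (h : Ideal.span {(a : 𝓞 K)} ⊔ f = ⊤)
    (y : InfinitePlace K → ℝ) (ω : InfinitePlace K → ℂ) :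
    ∑ r ∈ X, nu K f M H a y ω r = nn K M H (fun v => y v - 2 * Real.log a) ω := by
  simp only [nu_eq, nn_eq]
  rw [← Summable.tsum_finsetSum fun _ _ => ENNReal.summable]
  refine tsum_congr fun x => ?_
  rw [← Finset.sum_mul]
  obtain ⟨r, ⟨hr, hr2⟩, huniq⟩ := rep_mul hX h x.2
  have h1 : ∑ r ∈ X, (if x.1 - (a : K) * r ∈ (f : FI K) * M then (1 : ℝ≥0∞) else 0) = 1 := by
    rw [Finset.sum_eq_single r]
    · rw [if_pos hr2]
    · intro r' hr' hne
      rw [if_neg]
      intro h2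
      exact hne (huniq r' ⟨hr', h2⟩)
    · intro h2
      exact absurd hr h2
  rw [h1, one_mul]

open scoped Classical in
theorem yM_sub (M : FI K) (τ s : ℝ) (z : logSpace K) (v : InfinitePlace K) :
    yM K M τ z v - 2 * s = yM K M (τ - Module.finrank ℚ K * s) z v := by
  have hn : (Module.finrank ℚ K : ℝ) ≠ 0 := by
    have : 0 < Module.finrank ℚ K := Module.finrank_pos
    positivity
  unfold yM yc
  have e : 2 * (τ - (Module.finrank ℚ K : ℝ) * s - Real.log (FractionalIdeal.absNorm M : ℝ)) /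
      (Module.finrank ℚ K : ℝ) =
      2 * (τ - Real.log (FractionalIdeal.absNorm M : ℝ)) / (Module.finrank ℚ K : ℝ) - 2 * s := by
    field_simp
    ring
  rw [e]
  ring

theorem nn_meas (M : FI K) (H : InfinitePlace K → ℝ) (y : InfinitePlace K → ℝ) :
    Measurable (fun θ : InfinitePlace K → ℝ => nn K M H y (om true θ)) := by
  have := countable_K K
  have hm : ∀ x : {x : K // x ∈ M}, Measurable (fun θ : InfinitePlace K → ℝ =>
      tm H x.1 y (om true θ)) := fun x =>
    tm_meas H x.1 (fun _ => y) (fun _ => measurable_const)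
      (fun θ => θ) (fun v => measurable_pi_apply v)
  simp only [nn_eq]
  exact Measurable.tsum hm

end NF

/-- translation of an interval -/
theorem lint_shift (G : ℝ → ℝ≥0∞) (t b : ℝ) :
    ∫⁻ τ in Icc t (t + 1), G (τ - b) = ∫⁻ τ in Icc (t - b) (t - b + 1), G τ := by
  have h3 := lintegral_sub_right_eq_self (μ := (volume : Measure ℝ))
    ((Icc (t - b) (t - b + 1)).indicator G) b
  rw [← lintegral_indicator measurableSet_Icc, ← lintegral_indicator measurableSet_Icc, ← h3]
  refine lintegral_congr fun θ => ?_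
  by_cases hθ : θ ∈ Icc t (t + 1)
  · rw [indicator_of_mem hθ, indicator_of_mem]
    exact ⟨by linarith [hθ.1], by linarith [hθ.2]⟩
  · rw [indicator_of_notMem hθ, indicator_of_notMem]
    intro h
    exact hθ ⟨by linarith [h.1], by linarith [h.2]⟩

end Pool.Agent.H23.BG.FM
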