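import Pool.Agent.H23.BG.TargetsL

/-! `CR`: the Chinese remainder theorem for primitive multiplicative characters. -/

set_option autoImplicit false

open NumberField

namespace Pool.Agent.H23.BG

open Pool.Agent.H29.TC (LC MC)

namespace CR

variable {R S T : Type} [CommRing R] [CommRing S] [CommRing T]

lemma spl (e : T ≃+* R × S) {η : T → ℂ} (hη : MC η) (x : R) (y : S) :
    η (e.symm (x, y)) = η (e.symm (x, 1)) * η (e.symm (1, y)) := by
  rw [← hη.mul, ← map_mul, Prod.mk_mul_mk, mul_one, one_mul]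

lemma unit_iff (e : T ≃+* R × S) (x : R) : IsUnit (e.symm (x, 1)) ↔ IsUnit x := by
  constructor
  · intro h
    have h1 := h.map e
    rw [RingEquiv.apply_symm_apply, Prod.isUnit_iff] at h1
    exact h1.1
  · intro h
    exact (Prod.isUnit_iff.2 ⟨h, isUnit_one⟩ : IsUnit ((x, 1) : R × S)).map e.symm

lemma mc (e : T ≃+* R × S) {η : T → ℂ} (hη : MC η) : MC (fun x : R => η (e.symm (x, 1))) where
  one := by
    change η (e.symm 1) = 1
    rw [map_one, hη.one]
  mul x y := by
    rw [← hη.mul, ← map_mul, Prod.mk_mul_mk, mul_one]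
  unit x hx := hη.unit _ ((unit_iff e x).2 hx)
  zero x hx := hη.zero _ fun h => hx ((unit_iff e x).1 h)

lemma prim (e : T ≃+* R × S) {η : T → ℂ}
    (hp : ∀ w : T, w ≠ 0 → ∃ r : T, IsUnit (1 + r * w) ∧ η (1 + r * w) ≠ 1) (w : R)
    (hw : w ≠ 0) : ∃ r : R, IsUnit (1 + r * w) ∧ η (e.symm (1 + r * w, 1)) ≠ 1 := by
  obtain ⟨r, h1, h2⟩ := hp (e.symm (w, 0)) (by
    intro h
    have h3 := congrArg e h
    rw [RingEquiv.apply_symm_apply, map_zero] at h3
    exact hw (congrArg Prod.fst h3))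
  have h4 : 1 + r * e.symm (w, 0) = e.symm (1 + (e r).1 * w, 1) := by
    apply e.injective
    rw [RingEquiv.apply_symm_apply, map_add, map_mul, map_one, RingEquiv.apply_symm_apply]
    refine Prod.ext ?_ ?_
    · simp
    · simp
  rw [h4] at h1 h2
  exact ⟨(e r).1, (unit_iff e _).1 h1, h2⟩

lemma sum [Fintype R] [Fintype S] [Fintype T] (e : T ≃+* R × S) {η : T → ℂ} (hη : MC η)
    (a : Fin 4 → T) :
    c4 η a = c4 (fun x : R => η (e.symm (x, 1))) (fun i => (e (a i)).1) *
      c4 (fun y : S => η (e.symm (1, y))) (fun i => (e (a i)).2) := by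
  unfold c4
  have key : ∀ (x : R) (y : S) (i : Fin 4), η (e.symm (x, y) + a i) =
      η (e.symm (x + (e (a i)).1, 1)) * η (e.symm (1, y + (e (a i)).2)) := by
    intro x y i
    rw [← spl e hη]
    congr 1
    apply e.injective
    rw [map_add, RingEquiv.apply_symm_apply, RingEquiv.apply_symm_apply]
    rfl
  rw [← Equiv.sum_comp e.symm.toEquiv, Fintype.sum_prod_type, Finset.sum_mul_sum]
  refine Finset.sum_congr rfl fun x _ => Finset.sum_congr rfl fun y _ => ?_
  change η (e.symm (x, y) + a 0) * η (e.symm (x, y) + a 1) *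
    (starRingEnd ℂ) (η (e.symm (x, y) + a 2)) * (starRingEnd ℂ) (η (e.symm (x, y) + a 3)) = _
  rw [key, key, key, key, map_mul, map_mul]
  ring

end CR

theorem pf_L_CR : L_CR := by
  intro K _ _ f g hf hg hfg _ _ _ η hη
  have hco : IsCoprime f g := Ideal.isCoprime_iff_sup_eq.2 hfg
  let e := Ideal.quotientMulEquivQuotientProd f g hco
  let e' : (𝓞 K ⧸ f * g) ≃+* (𝓞 K ⧸ g) × (𝓞 K ⧸ f) := e.trans RingEquiv.prodComm
  have he : ∀ x : 𝓞 K, e (Ideal.Quotient.mk (f * g) x) =
      (Ideal.Quotient.mk f x, Ideal.Quotient.mk g x) := by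
    intro x
    refine Prod.ext ?_ ?_
    · rw [Ideal.quotientMulEquivQuotientProd_fst]; rfl
    · rw [Ideal.quotientMulEquivQuotientProd_snd]; rfl
  refine ⟨fun x => η (e.symm (x, 1)), fun y => η (e.symm (1, y)), ⟨CR.mc e hη.mc, ?_⟩,
    ⟨CR.mc e' hη.mc, ?_⟩, ?_⟩
  · intro w hw
    exact CR.prim e hη.prim w hw
  · intro w hw
    exact CR.prim e' hη.prim w hw
  · intro a
    rw [CR.sum e hη.mc]
    simp only [he]

end Pool.Agent.H23.BG
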