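import Pool.Agent.H19.BG.FMb

/-!
# Counting pairs of points near one
-/

set_option autoImplicit false

open NumberField NumberField.InfinitePlace NumberField.Units
  NumberField.Units.dirichletUnitTheorem MeasureTheory Set Filter Complex
open scoped nonZeroDivisors ENNReal

namespace Pool.Agent.H23.BG.N2

open Pool.Agent.H25.HK Pool.Agent.H23.LB Pool.Agent.H23.LC Pool.Agent.H29.DW
open Pool.Agent.H28.RC (Rep)

/-- counting with fibres -/
theorem fib {α β : Type} [DecidableEq β] (S : Finset α) (T : Finset β) (o : β) (g : α → β)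
    (hg : ∀ p ∈ S, g p ∈ T) (ho : o ∈ T) (N₀ N₁ : ℕ) (h0 : (S.filter (fun p => g p = o)).card ≤ N₀)
    (h1 : ∀ h, h ≠ o → (S.filter (fun p => g p = h)).card ≤ N₁) :
    S.card ≤ N₀ + (T.card - 1) * N₁ := by
  have h2 := Finset.card_filter_add_card_filter_not (s := S) (fun p => g p = o)
  have h3 : (S.filter (fun p => ¬ g p = o)).card ≤ N₁ * (T.erase o).card := by
    apply Finset.card_le_mul_card_image_of_maps_to (f := g)
    · intro p hp
      rw [Finset.mem_filter] at hp
      exact Finset.mem_erase.2 ⟨hp.2, hg p hp.1⟩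
    · intro h hh
      refine le_trans (Finset.card_le_card ?_) (h1 h (Finset.mem_erase.1 hh).1)
      intro p hp
      rw [Finset.mem_filter, Finset.mem_filter] at hp
      exact Finset.mem_filter.2 ⟨hp.1.1, hp.2⟩
  rw [Finset.card_erase_of_mem ho, mul_comm] at h3
  omega

section NF

variable {K : Type} [Field K] [NumberField K]

/-- the shift of the boxes -/
noncomputable def sh (H : InfinitePlace K → ℝ) (s : ℝ) (v : InfinitePlace K) : ℝ :=
  2 * Real.log (4 * H v) - 2 * s

/-- the points near one -/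
def NS (M : FI K) (H : InfinitePlace K → ℝ) (y : InfinitePlace K → ℝ)
    (ω : InfinitePlace K → ℂ) : Set K :=
  {x | x ∈ M ∧ ∀ v : InfinitePlace K, H v * ‖wv v x y ω - 1‖ ≤ 1 / 8}

/-- the position at the scale `a` -/
noncomputable def ya (y : InfinitePlace K → ℝ) (a : ℕ) (v : InfinitePlace K) : ℝ :=
  y v - 2 * Real.log a

theorem wv_ya (v : InfinitePlace K) (x : K) (y : InfinitePlace K → ℝ) (ω : InfinitePlace K → ℂ)
    {a : ℕ} (ha : 0 < a) : wv v ((a : K) * x) (ya y a) ω = wv v x y ω := by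
  have ha' : (0 : ℝ) < a := by exact_mod_cast ha
  unfold wv ya
  have e : Real.exp ((y v - 2 * Real.log a) / 2) = Real.exp (y v / 2) / a := by
    rw [show (y v - 2 * Real.log a) / 2 = y v / 2 - Real.log a by ring, Real.exp_sub,
      Real.exp_log ha']
  rw [e, map_mul, map_natCast]
  have h : (a : ℂ) ≠ 0 := by exact_mod_cast ha'.ne'
  push_cast
  field_simp

theorem wv_sub (v : InfinitePlace K) (x x' : K) (y : InfinitePlace K → ℝ)
    (ω : InfinitePlace K → ℂ) : wv v (x - x') y ω = wv v x y ω - wv v x' y ω := by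
  unfold wv
  rw [map_sub]
  ring

/-- membership in a box -/
theorem mem_Bx {L : FI K} {y : InfinitePlace K → ℝ} {ω : InfinitePlace K → ℂ} (hω : Pos ω)
    {H : InfinitePlace K → ℝ} (hH : ∀ v, 1 ≤ H v) {s : ℝ} {x : K} (hx : x ∈ L)
    (h : ∀ v, H v * ‖wv v x y ω‖ ≤ Real.exp s / 4) : x ∈ Bx K L (fun v => y v + sh H s v) := by
  refine ⟨hx, fun v => ?_⟩
  have h1 := h v
  rw [norm_wv v x y hω] at h1
  have hv : 0 < H v := lt_of_lt_of_le one_pos (hH v)
  have e : Real.exp ((y v + sh H s v) / 2) = Real.exp (y v / 2) * (4 * H v) * Real.exp (-s) := by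
    unfold sh
    rw [show (y v + (2 * Real.log (4 * H v) - 2 * s)) / 2 = y v / 2 + Real.log (4 * H v) + -s by
      ring, Real.exp_add, Real.exp_add, Real.exp_log (by positivity)]
  rw [e]
  have h2 : Real.exp s * Real.exp (-s) = 1 := by rw [← Real.exp_add]; simp
  calc v x * (Real.exp (y v / 2) * (4 * H v) * Real.exp (-s))
      = 4 * (H v * (v x * Real.exp (y v / 2))) * Real.exp (-s) := by ring
    _ ≤ 4 * (Real.exp s / 4) * Real.exp (-s) := by gcongr
    _ = 1 := by rw [← h2]; ring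

theorem near_sub {M : FI K} {H : InfinitePlace K → ℝ} (hH : ∀ v, 1 ≤ H v)
    {y : InfinitePlace K → ℝ} {ω : InfinitePlace K → ℂ} {x x' : K} (hx : x ∈ NS M H y ω)
    (hx' : x' ∈ NS M H y ω) (v : InfinitePlace K) : H v * ‖wv v (x - x') y ω‖ ≤ 1 / 4 := by
  have hv : 0 < H v := lt_of_lt_of_le one_pos (hH v)
  have h1 : ‖wv v (x - x') y ω‖ ≤ ‖wv v x y ω - 1‖ + ‖wv v x' y ω - 1‖ := by
    rw [wv_sub]
    have := norm_sub_le (wv v x y ω - 1) (wv v x' y ω - 1)
    rwa [sub_sub_sub_cancel_right] at this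
  have h2 := hx.2 v
  have h3 := hx'.2 v
  nlinarith

theorem NS_fin {M : FI K} (hB : ∀ y : InfinitePlace K → ℝ, (Bx K M y).Finite)
    (H : InfinitePlace K → ℝ) (hH : ∀ v, 1 ≤ H v) (y : InfinitePlace K → ℝ)
    {ω : InfinitePlace K → ℂ} (hω : Pos ω) : (NS M H y ω).Finite := by
  refine (hB (fun v => y v - 2 * Real.log 2)).subset fun x hx => ⟨hx.1, fun v => ?_⟩
  have hv := hH v
  have h2 := hx.2 v
  have h3 : ‖wv v x y ω‖ ≤ 2 := by
    have h4 : ‖wv v x y ω‖ ≤ ‖wv v x y ω - 1‖ + 1 := by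
      have := norm_add_le (wv v x y ω - 1) 1
      rwa [sub_add_cancel, norm_one] at this
    have h5 := norm_nonneg (wv v x y ω - 1)
    nlinarith
  rw [norm_wv v x y hω] at h3
  have e : Real.exp ((y v - 2 * Real.log 2) / 2) = Real.exp (y v / 2) / 2 := by
    rw [show (y v - 2 * Real.log 2) / 2 = y v / 2 - Real.log 2 by ring, Real.exp_sub,
      Real.exp_log (by norm_num)]
  rw [e]
  linarith

/-- the number of the points near one is at most the number of the points in a box -/
theorem card_NS {M : FI K} (hB : ∀ y : InfinitePlace K → ℝ, (Bx K M y).Finite)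
    (H : InfinitePlace K → ℝ) (hH : ∀ v, 1 ≤ H v) (y : InfinitePlace K → ℝ)
    {ω : InfinitePlace K → ℂ} (hω : Pos ω) :
    (NS_fin hB H hH y hω).toFinset.card ≤ (hB (fun v => y v + sh H 0 v)).toFinset.card := by
  rcases (NS M H y ω).eq_empty_or_nonempty with h | ⟨x₀, hx₀⟩
  · have : (NS_fin hB H hH y hω).toFinset = ∅ := by
      rw [Set.Finite.toFinset_eq_empty]
      exact h
    rw [this]
    simp
  · refine Finset.card_le_card_of_injOn (fun x => x - x₀) ?_ ?_
    · intro x hx
      rw [Finset.mem_coe, Set.Finite.mem_toFinset] at hx ⊢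
      refine mem_Bx hω hH (FM.sub_mem' M hx.1 hx₀.1) fun v => ?_
      rw [Real.exp_zero]
      exact near_sub hH hx hx₀ v
    · intro x _ x' _ h
      exact sub_left_injective h

/-- pairs with the same scale -/
theorem cardA {M : FI K} {f : Ideal (𝓞 K)} (hB : ∀ y : InfinitePlace K → ℝ, (Bx K M y).Finite)
    (hBf : ∀ y : InfinitePlace K → ℝ, (Bx K ((f : FI K) * M) y).Finite)
    (H : InfinitePlace K → ℝ) (hH : ∀ v, 1 ≤ H v) (y : InfinitePlace K → ℝ)
    {ω : InfinitePlace K → ℂ} (hω : Pos ω) (S : Finset (K × K))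
    (hS : ∀ p ∈ S, p.1 ∈ NS M H y ω ∧ p.2 ∈ NS M H y ω ∧ p.1 - p.2 ∈ (f : FI K) * M) :
    S.card ≤ (NS_fin hB H hH y hω).toFinset.card +
      ((hBf (fun v => y v + sh H 0 v)).toFinset.card - 1) *
        (hB (fun v => y v + sh H 0 v)).toFinset.card := by
  classical
  have hfib : ∀ h : K, (S.filter (fun p => p.1 - p.2 = h)).card ≤
      (NS_fin hB H hH y hω).toFinset.card := by
    intro h
    refine Finset.card_le_card_of_injOn (fun p => p.1) ?_ ?_
    · intro p hp
      rw [Finset.mem_coe, Finset.mem_filter] at hp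
      rw [Finset.mem_coe, Set.Finite.mem_toFinset]
      exact (hS p hp.1).1
    · intro p hp q hq hpq
      rw [Finset.mem_coe, Finset.mem_filter] at hp hq
      have h1 : p.1 = q.1 := hpq
      refine Prod.ext h1 ?_
      have h2 := hp.2.trans hq.2.symm
      rw [h1] at h2
      exact sub_right_injective h2
  refine fib S _ (0 : K) (fun p => p.1 - p.2) ?_ ?_ _ _ (hfib 0)
    (fun h _ => (hfib h).trans (card_NS hB H hH y hω))
  · intro p hp
    rw [Set.Finite.mem_toFinset]
    obtain ⟨h1, h2, h3⟩ := hS p hp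
    refine mem_Bx hω hH h3 fun v => ?_
    rw [Real.exp_zero]
    exact near_sub hH h1 h2 v
  · rw [Set.Finite.mem_toFinset]
    refine ⟨Submodule.zero_mem (((f : FI K) * M : FI K) : Submodule (𝓞 K) K), fun v => ?_⟩
    rw [map_zero, zero_mul]
    exact zero_le_one

end NF

end Pool.Agent.H23.BG.N2
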