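import Pool.Agent.H19.BG.N2a

/-!
# The pointwise inequality for the second moment
-/

set_option autoImplicit false

open NumberField NumberField.InfinitePlace NumberField.Units
  NumberField.Units.dirichletUnitTheorem MeasureTheory Set Filter Complex
open scoped nonZeroDivisors ENNReal

namespace Pool.Agent.H23.BG.N2

open Pool.Agent.H25.HK Pool.Agent.H23.LB Pool.Agent.H23.LC Pool.Agent.H29.DW
open Pool.Agent.H28.RC (Rep)

section NF

variable {K : Type} [Field K] [NumberField K]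

theorem wv_scale (v : InfinitePlace K) (x : K) (y : InfinitePlace K → ℝ)
    (ω : InfinitePlace K → ℂ) {a : ℕ} (ha : 0 < a) :
    wv v x y ω = (a : ℂ) * wv v x (ya y a) ω := by
  rw [← wv_ya v x y ω ha]
  unfold wv
  rw [map_mul, map_natCast]
  ring

theorem int_mem (L : FI K) (u : ℤ) {x : K} (hx : x ∈ L) : (u : K) * x ∈ L := by
  have h := FM.smul_mem L (u : 𝓞 K) hx
  rwa [show (((u : 𝓞 K) : 𝓞 K) : K) = (u : K) from map_intCast (algebraMap (𝓞 K) K) u] at h

/-- the solutions of `a' d₁ = a d₂` -/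
theorem bez {a a' : ℕ} {u w : ℤ} (h : u * (a : ℤ) + w * (a' : ℤ) = 1) {d₁ d₂ : K}
    (hd : (a' : K) * d₁ = (a : K) * d₂) :
    d₁ = (a : K) * ((u : K) * d₁ + (w : K) * d₂) ∧
      d₂ = (a' : K) * ((u : K) * d₁ + (w : K) * d₂) := by
  have h1 : (u : K) * (a : K) + (w : K) * (a' : K) = 1 := by exact_mod_cast congrArg (Int.cast (R := K)) h
  constructor
  · linear_combination (-d₁) * h1 + (w : K) * hd
  · linear_combination (-d₂) * h1 - (u : K) * hd

/-- pairs with different scales -/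
theorem cardB {M : FI K} {f : Ideal (𝓞 K)} (hB : ∀ y : InfinitePlace K → ℝ, (Bx K M y).Finite)
    (hBf : ∀ y : InfinitePlace K → ℝ, (Bx K ((f : FI K) * M) y).Finite)
    (H : InfinitePlace K → ℝ) (hH : ∀ v, 1 ≤ H v) (y : InfinitePlace K → ℝ)
    {ω : InfinitePlace K → ℂ} (hω : Pos ω) {a a' : ℕ} (ha : 0 < a) (ha' : 0 < a')
    (hc : Nat.Coprime a a') (S : Finset (K × K))
    (hS : ∀ p ∈ S, p.1 ∈ NS M H (ya y a) ω ∧ p.2 ∈ NS M H (ya y a') ω ∧
      (a' : K) * p.1 - (a : K) * p.2 ∈ (f : FI K) * M) :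
    S.card ≤ (NS_fin hB H hH y hω).toFinset.card +
      ((hBf (fun v => y v + sh H (Real.log (a * a')) v)).toFinset.card - 1) *
        (hB (fun v => y v + sh H 0 v)).toFinset.card := by
  classical
  obtain ⟨u, w, huw⟩ := Nat.isCoprime_iff_coprime.2 hc
  have haR : (0 : ℝ) < a := by exact_mod_cast ha
  have haR' : (0 : ℝ) < a' := by exact_mod_cast ha'
  have hinj : ∀ p q : K × K, (a' : K) * p.1 - (a : K) * p.2 = (a' : K) * q.1 - (a : K) * q.2 →
      (u : K) * p.1 + (w : K) * p.2 = (u : K) * q.1 + (w : K) * q.2 → p = q := by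
    intro p q h1 h2
    have h3 : (a' : K) * (p.1 - q.1) = (a : K) * (p.2 - q.2) := by linear_combination h1
    obtain ⟨h4, h5⟩ := bez huw h3
    have h6 : (u : K) * (p.1 - q.1) + (w : K) * (p.2 - q.2) = 0 := by linear_combination h2
    rw [h6, mul_zero, sub_eq_zero] at h4 h5
    exact Prod.ext h4 h5
  refine fib S _ (0 : K) (fun p => (a' : K) * p.1 - (a : K) * p.2) ?_ ?_ _ _ ?_ ?_
  · intro p hp
    rw [Set.Finite.mem_toFinset]
    obtain ⟨h1, h2, h3⟩ := hS p hp
    refine mem_Bx hω hH h3 fun v => ?_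
    have hv : 0 < H v := lt_of_lt_of_le one_pos (hH v)
    rw [Real.exp_log (by positivity)]
    have e : wv v ((a' : K) * p.1 - (a : K) * p.2) y ω = ((a : ℂ) * a') *
        ((wv v p.1 (ya y a) ω - 1) - (wv v p.2 (ya y a') ω - 1)) := by
      have e1 : wv v ((a' : K) * p.1 - (a : K) * p.2) y ω =
          (a' : ℂ) * wv v p.1 y ω - (a : ℂ) * wv v p.2 y ω := by
        unfold wv
        rw [map_sub, map_mul, map_mul, map_natCast, map_natCast]
        ring
      rw [e1, wv_scale v p.1 y ω ha, wv_scale v p.2 y ω ha']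
      ring
    have h4 := h1.2 v
    have h5 := h2.2 v
    have h6 : ‖(wv v p.1 (ya y a) ω - 1) - (wv v p.2 (ya y a') ω - 1)‖ ≤
        ‖wv v p.1 (ya y a) ω - 1‖ + ‖wv v p.2 (ya y a') ω - 1‖ := norm_sub_le _ _
    rw [e, norm_mul, norm_mul, Complex.norm_natCast, Complex.norm_natCast]
    calc H v * ((a : ℝ) * a' * ‖(wv v p.1 (ya y a) ω - 1) - (wv v p.2 (ya y a') ω - 1)‖)
        ≤ H v * ((a : ℝ) * a' * (‖wv v p.1 (ya y a) ω - 1‖ + ‖wv v p.2 (ya y a') ω - 1‖)) := by
          gcongr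
      _ = (a : ℝ) * a' * (H v * ‖wv v p.1 (ya y a) ω - 1‖ + H v * ‖wv v p.2 (ya y a') ω - 1‖) := by
          ring
      _ ≤ (a : ℝ) * a' * (1 / 8 + 1 / 8) := by gcongr
      _ = (a : ℝ) * a' / 4 := by ring
  · rw [Set.Finite.mem_toFinset]
    refine ⟨Submodule.zero_mem (((f : FI K) * M : FI K) : Submodule (𝓞 K) K), fun v => ?_⟩
    rw [map_zero, zero_mul]
    exact zero_le_one
  · refine Finset.card_le_card_of_injOn (fun p => (u : K) * p.1 + (w : K) * p.2) ?_ ?_
    · intro p hp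
      rw [Finset.mem_coe, Finset.mem_filter] at hp
      rw [Finset.mem_coe, Set.Finite.mem_toFinset]
      obtain ⟨h1, h2, -⟩ := hS p hp.1
      have h4 := (bez huw (sub_eq_zero.1 hp.2)).1
      refine ⟨FM.add_mem' M (int_mem M u h1.1) (int_mem M w h2.1), fun v => ?_⟩
      change H v * ‖wv v ((u : K) * p.1 + (w : K) * p.2) y ω - 1‖ ≤ 1 / 8
      rw [← wv_ya v _ y ω ha, ← h4]
      exact h1.2 v
    · intro p hp q hq hpq
      rw [Finset.mem_coe, Finset.mem_filter] at hp hq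
      exact hinj p q (hp.2.trans hq.2.symm) hpq
  · intro h _
    rcases (S.filter (fun p => (a' : K) * p.1 - (a : K) * p.2 = h)).eq_empty_or_nonempty with
      he | ⟨p₀, hp₀⟩
    · rw [he]
      simp
    · rw [Finset.mem_filter] at hp₀
      refine Finset.card_le_card_of_injOn (fun p => ((u : K) * p.1 + (w : K) * p.2) -
        ((u : K) * p₀.1 + (w : K) * p₀.2)) ?_ ?_
      · intro p hp
        rw [Finset.mem_coe, Finset.mem_filter] at hp
        rw [Finset.mem_coe, Set.Finite.mem_toFinset]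
        obtain ⟨h1, h2, -⟩ := hS p hp.1
        obtain ⟨h1', h2', -⟩ := hS p₀ hp₀.1
        have h3 : (a' : K) * (p.1 - p₀.1) = (a : K) * (p.2 - p₀.2) := by
          linear_combination hp.2 - hp₀.2
        have h4 := (bez huw h3).1
        have h5 : (u : K) * (p.1 - p₀.1) + (w : K) * (p.2 - p₀.2) =
            ((u : K) * p.1 + (w : K) * p.2) - ((u : K) * p₀.1 + (w : K) * p₀.2) := by ring
        rw [h5] at h4
        refine mem_Bx hω hH (FM.sub_mem' M
          (FM.add_mem' M (int_mem M u h1.1) (int_mem M w h2.1))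
          (FM.add_mem' M (int_mem M u h1'.1) (int_mem M w h2'.1))) fun v => ?_
        rw [Real.exp_zero, ← wv_ya v _ y ω ha, ← h4]
        exact near_sub hH h1 h1' v
      · intro p hp q hq hpq
        rw [Finset.mem_coe, Finset.mem_filter] at hp hq
        exact hinj p q (hp.2.trans hq.2.symm) (sub_left_injective hpq)

theorem tsum_card (M : FI K) (Q : K → Prop) [DecidablePred Q] (F : Finset K) (hF : ∀ x, x ∈ F ↔ x ∈ M ∧ Q x) :
    ∑' x : {x : K // x ∈ M}, (if Q x.1 then (1 : ℝ≥0∞) else 0) = F.card := by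
  have h := tsum_subtype {x : K | x ∈ M} (fun x => if Q x then (1 : ℝ≥0∞) else 0)
  refine h.trans ?_
  rw [tsum_eq_sum (s := F)]
  · have h1 : ∀ x ∈ F, ({x : K | x ∈ M}).indicator (fun x => if Q x then (1 : ℝ≥0∞) else 0) x =
        1 := by
      intro x hx
      have h2 := (hF x).1 hx
      rw [Set.indicator_of_mem (by exact h2.1), if_pos h2.2]
    rw [Finset.sum_congr rfl h1]
    simp
  · intro x hx
    by_cases h1 : x ∈ M
    · rw [Set.indicator_of_mem (by exact h1), if_neg]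
      intro h2
      exact hx ((hF x).2 ⟨h1, h2⟩)
    · rw [Set.indicator_of_notMem (by exact h1)]

open scoped Classical in
theorem nn_card {M : FI K} (hB : ∀ y : InfinitePlace K → ℝ, (Bx K M y).Finite)
    (H : InfinitePlace K → ℝ) (hH : ∀ v, 1 ≤ H v) (y : InfinitePlace K → ℝ)
    {ω : InfinitePlace K → ℂ} (hω : Pos ω) :
    nn K M H y ω = (NS_fin hB H hH y hω).toFinset.card := by
  unfold nn
  refine tsum_card M (fun x => ∀ v : InfinitePlace K, H v * ‖wv v x y ω - 1‖ ≤ 1 / 8) _ ?_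
  intro x
  rw [Set.Finite.mem_toFinset]
  rfl

open scoped Classical in
theorem nu_card {M : FI K} (f : Ideal (𝓞 K)) (hB : ∀ y : InfinitePlace K → ℝ, (Bx K M y).Finite)
    (H : InfinitePlace K → ℝ) (hH : ∀ v, 1 ≤ H v) (y : InfinitePlace K → ℝ)
    {ω : InfinitePlace K → ℂ} (hω : Pos ω) (a : ℕ) (r : K) :
    nu K f M H a y ω r = (((NS_fin hB H hH (ya y a) hω).toFinset.filter
      (fun x => x - (a : K) * r ∈ (f : FI K) * M)).card : ℝ≥0∞) := by
  unfold nu
  refine tsum_card M (fun x => x - (a : K) * r ∈ (f : FI K) * M ∧ ∀ v : InfinitePlace K,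
    H v * ‖wv v x (fun v => y v - 2 * Real.log a) ω - 1‖ ≤ 1 / 8) _ ?_
  intro x
  rw [Finset.mem_filter, Set.Finite.mem_toFinset]
  constructor
  · rintro ⟨h1, h2⟩
    exact ⟨h1.1, h2, h1.2⟩
  · rintro ⟨h1, h2, h3⟩
    exact ⟨⟨h1, h3⟩, h2⟩

end NF

end Pool.Agent.H23.BG.N2
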