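import Pool.Agent.H19.BG.N2b

/-!
# The pointwise inequality for the second moment, conclusion
-/

set_option autoImplicit false

open NumberField NumberField.InfinitePlace NumberField.Units
  NumberField.Units.dirichletUnitTheorem MeasureTheory Set Filter Complex
open scoped nonZeroDivisors ENNReal

namespace Pool.Agent.H23.BG.N2

open Pool.Agent.H25.HK Pool.Agent.H23.LB Pool.Agent.H23.LC Pool.Agent.H29.DW
open Pool.Agent.H28.RC (Rep)

section NF

variable {K : Type} [Field K] [NumberField K]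

open scoped Classical in
theorem comb {M : FI K} {f : Ideal (𝓞 K)} {X : Finset K} (hX : Rep K f M X)
    (hB : ∀ y : InfinitePlace K → ℝ, (Bx K M y).Finite)
    (hBf : ∀ y : InfinitePlace K → ℝ, (Bx K ((f : FI K) * M) y).Finite)
    (H : InfinitePlace K → ℝ) (hH : ∀ v, 1 ≤ H v) (y : InfinitePlace K → ℝ)
    {ω : InfinitePlace K → ℂ} (hω : Pos ω) (P : Finset ℕ)
    (hP : ∀ a ∈ P, a.Prime ∧ Ideal.span {(a : 𝓞 K)} ⊔ f = ⊤) :
    ∑ r ∈ X, (∑ a ∈ P, ((NS_fin hB H hH (ya y a) hω).toFinset.filter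
      (fun x => x - (a : K) * r ∈ (f : FI K) * M)).card) ^ 2 ≤
    ∑ a ∈ P, ((NS_fin hB H hH (ya y a) hω).toFinset.card +
      ((hBf (fun v => ya y a v + sh H 0 v)).toFinset.card - 1) *
        (hB (fun v => ya y a v + sh H 0 v)).toFinset.card) +
    ∑ a ∈ P, ∑ a' ∈ P, ((NS_fin hB H hH y hω).toFinset.card +
      ((hBf (fun v => y v + sh H (Real.log (a * a')) v)).toFinset.card - 1) *
        (hB (fun v => y v + sh H 0 v)).toFinset.card) := by
  set c : ℕ → K → Finset K := fun a r => (NS_fin hB H hH (ya y a) hω).toFinset.filter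
    (fun x => x - (a : K) * r ∈ (f : FI K) * M) with hc
  set A : ℕ → ℕ := fun a => (NS_fin hB H hH (ya y a) hω).toFinset.card +
      ((hBf (fun v => ya y a v + sh H 0 v)).toFinset.card - 1) *
        (hB (fun v => ya y a v + sh H 0 v)).toFinset.card with hA
  set B : ℕ → ℕ → ℕ := fun a a' => (NS_fin hB H hH y hω).toFinset.card +
      ((hBf (fun v => y v + sh H (Real.log (a * a')) v)).toFinset.card - 1) *
        (hB (fun v => y v + sh H 0 v)).toFinset.card with hBB
  have hmem : ∀ a r x, x ∈ c a r ↔ x ∈ NS M H (ya y a) ω ∧ x - (a : K) * r ∈ (f : FI K) * M := by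
    intro a r x
    rw [hc]
    simp only [Finset.mem_filter, Set.Finite.mem_toFinset]
  have key : ∀ a ∈ P, ∀ a' ∈ P, ∑ r ∈ X, (c a r).card * (c a' r).card ≤
      (if a = a' then A a else 0) + B a a' := by
    intro a ha a' ha'
    obtain ⟨hpa, hca⟩ := hP a ha
    obtain ⟨hpa', hca'⟩ := hP a' ha'
    have e : ∑ r ∈ X, (c a r).card * (c a' r).card =
        (X.biUnion (fun r => c a r ×ˢ c a' r)).card := by
      rw [Finset.card_biUnion]
      · exact Finset.sum_congr rfl fun r _ => (Finset.card_product _ _).symm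
      · intro r hr r' hr' hne
        rw [Function.onFun, Finset.disjoint_left]
        intro p hp hp'
        rw [Finset.mem_product] at hp hp'
        have h1 := (hmem a r p.1).1 hp.1
        have h2 := (hmem a r' p.1).1 hp'.1
        obtain ⟨r₀, -, hu⟩ := FM.rep_mul hX hca h1.1.1
        exact hne ((hu r ⟨hr, h1.2⟩).trans (hu r' ⟨hr', h2.2⟩).symm)
    rw [e]
    have hmem2 : ∀ p ∈ X.biUnion (fun r => c a r ×ˢ c a' r), ∃ r ∈ X,
        (p.1 ∈ NS M H (ya y a) ω ∧ p.1 - (a : K) * r ∈ (f : FI K) * M) ∧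
        (p.2 ∈ NS M H (ya y a') ω ∧ p.2 - (a' : K) * r ∈ (f : FI K) * M) := by
      intro p hp
      obtain ⟨r, hr, hp⟩ := Finset.mem_biUnion.1 hp
      rw [Finset.mem_product] at hp
      exact ⟨r, hr, (hmem a r p.1).1 hp.1, (hmem a' r p.2).1 hp.2⟩
    by_cases haa : a = a'
    · subst haa
      rw [if_pos rfl]
      refine le_trans ?_ (Nat.le_add_right _ _)
      refine cardA hB hBf H hH (ya y a) hω _ ?_
      intro p hp
      obtain ⟨r, -, ⟨h1, h2⟩, h3, h4⟩ := hmem2 p hp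
      refine ⟨h1, h3, ?_⟩
      have h5 := FM.sub_mem' _ h2 h4
      rwa [sub_sub_sub_cancel_right] at h5
    · rw [if_neg haa, zero_add]
      refine cardB hB hBf H hH y hω hpa.pos hpa'.pos ((Nat.coprime_primes hpa hpa').2 haa) _ ?_
      intro p hp
      obtain ⟨r, -, ⟨h1, h2⟩, h3, h4⟩ := hmem2 p hp
      refine ⟨h1, h3, ?_⟩
      have h5 := FM.sub_mem' _ (FM.smul_mem _ (a' : 𝓞 K) h2) (FM.smul_mem _ (a : 𝓞 K) h4)
      rw [FM.castK, FM.castK] at h5
      have e2 : (a' : K) * p.1 - (a : K) * p.2 =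
          (a' : K) * (p.1 - (a : K) * r) - (a : K) * (p.2 - (a' : K) * r) := by ring
      rwa [← e2] at h5
  calc ∑ r ∈ X, (∑ a ∈ P, (c a r).card) ^ 2
      = ∑ a ∈ P, ∑ a' ∈ P, ∑ r ∈ X, (c a r).card * (c a' r).card := by
        simp only [sq, Finset.sum_mul_sum]
        rw [Finset.sum_comm]
        exact Finset.sum_congr rfl fun a _ => Finset.sum_comm
    _ ≤ ∑ a ∈ P, ∑ a' ∈ P, ((if a = a' then A a else 0) + B a a') :=
        Finset.sum_le_sum fun a ha => Finset.sum_le_sum fun a' ha' => key a ha a' ha'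
    _ = _ := by
        have h1 : ∀ a ∈ P, ∑ a' ∈ P, ((if a = a' then A a else 0) + B a a') =
            A a + ∑ a' ∈ P, B a a' := by
          intro a ha
          rw [Finset.sum_add_distrib, Finset.sum_ite_eq, if_pos ha]
        rw [Finset.sum_congr rfl h1, Finset.sum_add_distrib]

theorem cb_card {L : FI K} {y : InfinitePlace K → ℝ} (h : (Bx K L y).Finite) :
    cb K L y = (h.toFinset.card : ℝ) := by
  unfold cb
  rw [Set.ncard_eq_toFinset_card _ h]

theorem ofR {L M : FI K} {y y' : InfinitePlace K → ℝ} (hL : (Bx K L y).Finite)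
    (hM : (Bx K M y').Finite) : ENNReal.ofReal ((cb K L y - 1) * cb K M y') =
      (((hL.toFinset.card - 1) * hM.toFinset.card : ℕ) : ℝ≥0∞) := by
  have h1 : 1 ≤ hL.toFinset.card := by
    apply Finset.card_pos.2
    refine ⟨0, ?_⟩
    rw [Set.Finite.mem_toFinset]
    refine ⟨Submodule.zero_mem (L : Submodule (𝓞 K) K), fun v => ?_⟩
    rw [map_zero, zero_mul]
    exact zero_le_one
  rw [cb_card hL, cb_card hM, ← ENNReal.ofReal_natCast]
  congr 1
  rw [Nat.cast_mul, Nat.cast_sub h1, Nat.cast_one]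

theorem pw {M : FI K} {f : Ideal (𝓞 K)} {X : Finset K} (hX : Rep K f M X)
    (hB : ∀ y : InfinitePlace K → ℝ, (Bx K M y).Finite)
    (hBf : ∀ y : InfinitePlace K → ℝ, (Bx K ((f : FI K) * M) y).Finite)
    (H : InfinitePlace K → ℝ) (hH : ∀ v, 1 ≤ H v) (y : InfinitePlace K → ℝ)
    {ω : InfinitePlace K → ℂ} (hω : Pos ω) (P : Finset ℕ)
    (hP : ∀ a ∈ P, a.Prime ∧ Ideal.span {(a : 𝓞 K)} ⊔ f = ⊤) :
    ∑ r ∈ X, (∑ a ∈ P, nu K f M H a y ω r) ^ 2 ≤
    ∑ a ∈ P, (nn K M H (ya y a) ω + ENNReal.ofReal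
      ((cb K ((f : FI K) * M) (fun v => ya y a v + sh H 0 v) - 1) *
        cb K M (fun v => ya y a v + sh H 0 v))) +
    ∑ a ∈ P, ∑ a' ∈ P, (nn K M H y ω + ENNReal.ofReal
      ((cb K ((f : FI K) * M) (fun v => y v + sh H (Real.log (a * a')) v) - 1) *
        cb K M (fun v => y v + sh H 0 v))) := by
  classical
  have h := comb hX hB hBf H hH y hω P hP
  simp only [nu_card f hB H hH y hω, nn_card hB H hH _ hω, ofR (hBf _) (hB _)]
  exact_mod_cast h

end NF

end Pool.Agent.H23.BG.N2
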