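import Pool.Agent.H19.BG.N2c

/-!
# Integrals over the positions
-/

set_option autoImplicit false

open NumberField NumberField.InfinitePlace NumberField.Units
  NumberField.Units.dirichletUnitTheorem MeasureTheory Set Filter Complex
open scoped nonZeroDivisors ENNReal

namespace Pool.Agent.H23.BG.N2

open Pool.Agent.H25.HK Pool.Agent.H23.LB Pool.Agent.H23.LC Pool.Agent.H29.DW
open Pool.Agent.H61.GLB (countable_K yM_add yM_cont)
open Pool.Agent.H28.RC (Rep)

section NF

variable {K : Type} [Field K] [NumberField K]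

theorem th_toReal (L : FI K) (y : InfinitePlace K → ℝ) : th K L y =
    (∑' x : {x : K // x ∈ L}, ENNReal.ofReal (Real.exp (-Real.pi * qK K y x))).toReal := by
  rw [ENNReal.tsum_toReal_eq fun _ => ENNReal.ofReal_ne_top]
  unfold th
  exact tsum_congr fun x => (ENNReal.toReal_ofReal (Real.exp_pos _).le).symm

open scoped Classical in
theorem th_real_meas (L M : FI K) (a : InfinitePlace K → ℝ) : Measurable
    (fun q : logSpace K × ℝ => th K L (fun v => yM K M q.2 q.1 v + a v)) := by
  have := countable_K K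
  simp only [th_toReal]
  refine Measurable.ennreal_toReal ?_
  refine Measurable.tsum fun x => ?_
  refine Continuous.measurable ?_ |>.ennreal_ofReal
  unfold qK
  have h1 : ∀ v : InfinitePlace K, Continuous (fun q : logSpace K × ℝ => yM K M q.2 q.1 v) :=
    fun v => (continuous_apply v).comp (yM_cont K M)
  fun_prop

open scoped Classical in
/-- the product of theta functions -/
noncomputable def tq (L M : FI K) (a b : InfinitePlace K → ℝ) (q : logSpace K × ℝ) : ℝ≥0∞ :=
  ENNReal.ofReal ((th K L (fun v => yM K M q.2 q.1 v + a v) - 1) *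
    th K M (fun v => yM K M q.2 q.1 v + b v))

open scoped Classical in
theorem tq_meas (L M : FI K) (a b : InfinitePlace K → ℝ) : Measurable (tq L M a b) := by
  unfold tq
  exact (((th_real_meas L M a).sub_const 1).mul (th_real_meas M M b)).ennreal_ofReal

open scoped Classical in
/-- the integral over all positions -/
noncomputable def II {ι : Type} [Fintype ι] (τ₁ : ℝ)
    (F : ι → ℝ → logSpace K → (InfinitePlace K → ℝ) → ℝ≥0∞) : ℝ≥0∞ :=
  ∫⁻ τ in Icc τ₁ (τ₁ + 1), ∑ c, ∫⁻ z in Fd K, ∫⁻ θ in An K, F c τ z θ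

open scoped Classical in
/-- joint measurability -/
def JM {ι : Type} (F : ι → ℝ → logSpace K → (InfinitePlace K → ℝ) → ℝ≥0∞) : Prop :=
  ∀ c, Measurable (fun u : ℝ × logSpace K × (InfinitePlace K → ℝ) => F c u.1 u.2.1 u.2.2)

section II

variable {ι : Type} [Fintype ι] {τ₁ : ℝ}
  {F G : ι → ℝ → logSpace K → (InfinitePlace K → ℝ) → ℝ≥0∞}

open scoped Classical in
omit [Fintype ι] in
theorem JM.m1 (h : JM F) (c : ι) (τ : ℝ) (z : logSpace K) : Measurable (fun θ => F c τ z θ) := by
  have h1 : Measurable (fun θ : InfinitePlace K → ℝ => ((τ, z, θ) : ℝ × logSpace K × _)) :=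
    measurable_const.prodMk (measurable_const.prodMk measurable_id)
  exact (h c).comp h1

open scoped Classical in
omit [Fintype ι] in
theorem JM.m2 (h : JM F) (c : ι) (τ : ℝ) : Measurable (fun z => ∫⁻ θ in An K, F c τ z θ) := by
  have h1 : Measurable (fun p : logSpace K × (InfinitePlace K → ℝ) =>
      ((τ, p.1, p.2) : ℝ × logSpace K × _)) :=
    measurable_const.prodMk (measurable_fst.prodMk measurable_snd)
  have h2 : Measurable (fun p : logSpace K × (InfinitePlace K → ℝ) => F c τ p.1 p.2) :=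
    (h c).comp h1
  exact h2.lintegral_prod_right'

open scoped Classical in
omit [Fintype ι] in
theorem JM.m3 (h : JM F) (c : ι) :
    Measurable (fun τ => ∫⁻ z in Fd K, ∫⁻ θ in An K, F c τ z θ) := by
  have h1 : Measurable (fun p : (ℝ × logSpace K) × (InfinitePlace K → ℝ) =>
      ((p.1.1, p.1.2, p.2) : ℝ × logSpace K × _)) :=
    (measurable_fst.comp measurable_fst).prodMk
      ((measurable_snd.comp measurable_fst).prodMk measurable_snd)
  have h2 : Measurable (fun p : (ℝ × logSpace K) × (InfinitePlace K → ℝ) =>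
      F c p.1.1 p.1.2 p.2) := (h c).comp h1
  have h3 : Measurable (fun p : ℝ × logSpace K => ∫⁻ θ in An K, F c p.1 p.2 θ) :=
    h2.lintegral_prod_right'
  exact h3.lintegral_prod_right'

open scoped Classical in
theorem II_add (h : JM F) :
    II τ₁ (fun c τ z θ => F c τ z θ + G c τ z θ) = II τ₁ F + II τ₁ G := by
  unfold II
  have e1 : ∀ τ : ℝ, ∑ c, ∫⁻ z in Fd K, ∫⁻ θ in An K, (F c τ z θ + G c τ z θ) =
      (∑ c, ∫⁻ z in Fd K, ∫⁻ θ in An K, F c τ z θ) +
        ∑ c, ∫⁻ z in Fd K, ∫⁻ θ in An K, G c τ z θ := by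
    intro τ
    rw [← Finset.sum_add_distrib]
    refine Finset.sum_congr rfl fun c _ => ?_
    rw [← lintegral_add_left (h.m2 c τ)]
    refine lintegral_congr fun z => ?_
    exact lintegral_add_left (h.m1 c τ z) _
  rw [lintegral_congr e1]
  exact lintegral_add_left (Finset.measurable_fun_sum _ fun c _ => h.m3 c) _

open scoped Classical in
theorem II_mono (h : ∀ c τ z θ, F c τ z θ ≤ G c τ z θ) : II τ₁ F ≤ II τ₁ G := by
  unfold II
  exact lintegral_mono fun τ => Finset.sum_le_sum fun c _ => lintegral_mono fun z =>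
    lintegral_mono fun θ => h c τ z θ

open scoped Classical in
theorem II_const_mul {r : ℝ≥0∞} (hr : r ≠ ⊤) :
    II τ₁ (fun c τ z θ => r * F c τ z θ) = r * II τ₁ F := by
  unfold II
  simp only [lintegral_const_mul' r _ hr, ← Finset.mul_sum]

open scoped Classical in
theorem II_zero : II τ₁ (fun (_ : ι) (_ : ℝ) (_ : logSpace K) (_ : InfinitePlace K → ℝ) =>
    (0 : ℝ≥0∞)) = 0 := by
  unfold II
  simp

open scoped Classical in
omit [Fintype ι] in
theorem JM_sum {κ : Type} (s : Finset κ)
    {F : κ → ι → ℝ → logSpace K → (InfinitePlace K → ℝ) → ℝ≥0∞} (h : ∀ a ∈ s, JM (F a)) :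
    JM (fun c τ z θ => ∑ a ∈ s, F a c τ z θ) := fun c =>
  Finset.measurable_fun_sum _ fun a ha => h a ha c

open scoped Classical in
theorem II_sum {κ : Type} (s : Finset κ)
    {F : κ → ι → ℝ → logSpace K → (InfinitePlace K → ℝ) → ℝ≥0∞} (h : ∀ a ∈ s, JM (F a)) :
    II τ₁ (fun c τ z θ => ∑ a ∈ s, F a c τ z θ) = ∑ a ∈ s, II τ₁ (F a) := by
  induction s using Finset.induction_on with
  | empty =>
    simp only [Finset.sum_empty]
    exact II_zero
  | insert a s ha ih =>
    have e : (fun (c : ι) (τ : ℝ) (z : logSpace K) (θ : InfinitePlace K → ℝ) =>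
        ∑ b ∈ insert a s, F b c τ z θ) =
        (fun c τ z θ => F a c τ z θ + (fun c τ z θ => ∑ b ∈ s, F b c τ z θ) c τ z θ) := by
      funext c τ z θ
      exact Finset.sum_insert ha
    rw [e, II_add (h a (Finset.mem_insert_self _ _)), Finset.sum_insert ha,
      ih fun b hb => h b (Finset.mem_insert_of_mem hb)]

open scoped Classical in
theorem II_le {B : ℝ≥0∞} (h : ∀ τ, τ₁ ≤ τ →
    ∑ c, ∫⁻ z in Fd K, ∫⁻ θ in An K, F c τ z θ ≤ B) : II τ₁ F ≤ B := by
  unfold II
  calc ∫⁻ τ in Icc τ₁ (τ₁ + 1), ∑ c, ∫⁻ z in Fd K, ∫⁻ θ in An K, F c τ z θ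
      ≤ ∫⁻ _τ in Icc τ₁ (τ₁ + 1), B := setLIntegral_mono measurable_const fun τ hτ => h τ hτ.1
    _ = B := by
      rw [setLIntegral_const, Real.volume_Icc, show τ₁ + 1 - τ₁ = 1 by ring,
        ENNReal.ofReal_one, mul_one]

end II

theorem vol_An {n : ℕ} (hK : Module.finrank ℚ K = n) :
    volume (An K) ≤ ENNReal.ofReal ((2 * Real.pi) ^ n) := by
  unfold An
  rw [volume_pi, Measure.pi_pi]
  simp only [Real.volume_Icc, sub_zero, Finset.prod_const, Finset.card_univ]
  rw [← ENNReal.ofReal_pow (by positivity)]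
  refine ENNReal.ofReal_le_ofReal ?_
  refine pow_le_pow_right₀ ?_ (card_places_le hK)
  have := Real.pi_gt_three
  linarith

end NF

end Pool.Agent.H23.BG.N2
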