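import Pool.Agent.H19.BG.N2d

/-!
# Numerical inequalities for the second moment
-/

set_option autoImplicit false

open NumberField NumberField.InfinitePlace NumberField.Units
  NumberField.Units.dirichletUnitTheorem MeasureTheory Set Filter Complex
open scoped nonZeroDivisors ENNReal

namespace Pool.Agent.H23.BG.N2

open Pool.Agent.H25.HK Pool.Agent.H23.LB Pool.Agent.H23.LC Pool.Agent.H29.DW

theorem num {κ L V₁ V₂ U₁ U₂ U₃ : ℝ} (hκ : 0 < κ) (hκ1 : κ ≤ 1) (hL : 1 ≤ L) (h1 : 0 < V₁)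
    (h2 : 0 < V₂) (hr1 : V₁ / V₂ ≤ L ^ 2) (hr2 : V₂ / V₁ ≤ L ^ 2) (hU1 : V₁ ≤ U₁)
    (hU2 : V₂ ≤ U₂) (hU3 : V₁ * V₂ ≤ U₃) :
    (V₁ / V₂ + V₂ / V₁) ^ κ * (V₁ + V₂ + V₁ * V₂) ≤ 2 * L ^ (4 * κ) * (U₁ + U₂ + U₃) := by
  have hL0 : 0 < L := by linarith
  have h3 : (V₁ / V₂ + V₂ / V₁) ^ κ ≤ 2 * L ^ (4 * κ) := by
    calc (V₁ / V₂ + V₂ / V₁) ^ κ ≤ (2 * L ^ 2) ^ κ :=
          Real.rpow_le_rpow (by positivity) (by linarith) hκ.le
      _ = 2 ^ κ * (L ^ 2) ^ κ := Real.mul_rpow (by norm_num) (by positivity)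
      _ = 2 ^ κ * L ^ (2 * κ) := by
          rw [← Real.rpow_natCast L 2, ← Real.rpow_mul hL0.le]
          norm_num
      _ ≤ 2 ^ (1 : ℝ) * L ^ (4 * κ) := by
          gcongr
          · norm_num
          · norm_num
      _ = 2 * L ^ (4 * κ) := by rw [Real.rpow_one]
  calc (V₁ / V₂ + V₂ / V₁) ^ κ * (V₁ + V₂ + V₁ * V₂)
      ≤ (2 * L ^ (4 * κ)) * (V₁ + V₂ + V₁ * V₂) :=
        mul_le_mul_of_nonneg_right h3 (by positivity)
    _ ≤ _ := mul_le_mul_of_nonneg_left (by linarith) (by positivity)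

section NF

variable {K : Type} [Field K] [NumberField K]

theorem VV_eq {n : ℕ} (hK : Module.finrank ℚ K = n) (j : Ideal (𝓞 K)) (H : InfinitePlace K → ℝ)
    (hH : ∀ v, 1 ≤ H v) (s τ : ℝ) :
    VV K j (sh H s) τ = Real.exp s ^ n * Vt K H τ / (4 ^ n * Nf K j) := by
  have hm : ∑ v : InfinitePlace K, v.mult = n := sum_mult hK
  have hs : ∑ v : InfinitePlace K, (v.mult : ℝ) = n := by exact_mod_cast hm
  have h0 : ∀ v, 0 < 4 * H v := fun v => by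
    have := hH v
    positivity
  have h1 : Real.exp (∑ v : InfinitePlace K, (v.mult : ℝ) * Real.log (4 * H v)) =
      4 ^ n * HH H := by
    rw [Real.exp_sum]
    have h2 : ∀ v : InfinitePlace K, Real.exp ((v.mult : ℝ) * Real.log (4 * H v)) =
        4 ^ v.mult * H v ^ v.mult := by
      intro v
      rw [Real.exp_nat_mul, Real.exp_log (h0 v), mul_pow]
    rw [Finset.prod_congr rfl fun v _ => h2 v, Finset.prod_mul_distrib,
      Finset.prod_pow_eq_pow_sum, hm]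
    rfl
  have h3 : ∑ v : InfinitePlace K, (v.mult : ℝ) * sh H s v =
      2 * (∑ v : InfinitePlace K, (v.mult : ℝ) * Real.log (4 * H v)) - 2 * (n * s) := by
    unfold sh
    rw [← hs, Finset.sum_mul, Finset.mul_sum, Finset.mul_sum, ← Finset.sum_sub_distrib]
    exact Finset.sum_congr rfl fun v _ => by ring
  have hHH : 0 < HH H := lt_of_lt_of_le one_pos (one_le_HH hH)
  unfold VV Vt
  rw [h3, show -τ - (2 * (∑ v : InfinitePlace K, (v.mult : ℝ) * Real.log (4 * H v)) -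
    2 * (n * s)) / 2 = -τ + (n * s) + -(∑ v : InfinitePlace K, (v.mult : ℝ) *
      Real.log (4 * H v)) by ring, Real.exp_add, Real.exp_add, Real.exp_neg (∑ v, _), h1,
    Real.exp_nat_mul]
  have h5 : (0 : ℝ) < |(discr K : ℝ)| := abs_pos.2 (by exact_mod_cast discr_ne_zero K)
  have h6 : 0 < Real.sqrt |(discr K : ℝ)| := Real.sqrt_pos.2 h5
  by_cases h7 : Nf K j = 0
  · rw [h7, mul_zero, mul_zero, div_zero, div_zero]
  · field_simp

theorem Vt_pos (H : InfinitePlace K → ℝ) (hH : ∀ v, 1 ≤ H v) (τ : ℝ) : 0 < Vt K H τ := by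
  have hHH : 0 < HH H := lt_of_lt_of_le one_pos (one_le_HH hH)
  have h5 : (0 : ℝ) < |(discr K : ℝ)| := abs_pos.2 (by exact_mod_cast discr_ne_zero K)
  have h6 : 0 < Real.sqrt |(discr K : ℝ)| := Real.sqrt_pos.2 h5
  unfold Vt
  positivity

theorem Vt_mono (H : InfinitePlace K → ℝ) (hH : ∀ v, 1 ≤ H v) {τ₁ τ : ℝ} (h : τ₁ ≤ τ) :
    Vt K H τ ≤ Vt K H τ₁ := by
  have hHH : 0 < HH H := lt_of_lt_of_le one_pos (one_le_HH hH)
  have h5 : (0 : ℝ) < |(discr K : ℝ)| := abs_pos.2 (by exact_mod_cast discr_ne_zero K)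
  have h6 : 0 < Real.sqrt |(discr K : ℝ)| := Real.sqrt_pos.2 h5
  unfold Vt
  gcongr

theorem one_le_Nf {f : Ideal (𝓞 K)} (hf : f ≠ ⊥) : 1 ≤ Nf K f := by
  unfold Nf
  have h : 1 ≤ Ideal.absNorm f := Nat.one_le_iff_ne_zero.2 fun h =>
    hf (Ideal.absNorm_eq_zero_iff.1 h)
  exact_mod_cast h

theorem Nf_top : Nf K (⊤ : Ideal (𝓞 K)) = 1 := by unfold Nf; simp

/-- the volumes for two points at the same scale -/
theorem numA {n : ℕ} (hK : Module.finrank ℚ K = n) {f : Ideal (𝓞 K)} (hf : f ≠ ⊥)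
    (H : InfinitePlace K → ℝ) (hH : ∀ v, 1 ≤ H v) {κ A τ₁ τ : ℝ} (hκ : 0 < κ) (hκ1 : κ ≤ 1)
    (hA : 1 ≤ A) (hτ : τ₁ ≤ τ) {a : ℕ} (ha : 0 < a) (haA : (a : ℝ) ≤ A) {L : ℝ}
    (hL : Nf K f * A ^ n ≤ L) (hL1 : 1 ≤ L) :
    (VV K f (sh H (Real.log a)) τ / VV K ⊤ (sh H (Real.log a)) τ +
      VV K ⊤ (sh H (Real.log a)) τ / VV K f (sh H (Real.log a)) τ) ^ κ *
      (VV K f (sh H (Real.log a)) τ + VV K ⊤ (sh H (Real.log a)) τ +
        VV K f (sh H (Real.log a)) τ * VV K ⊤ (sh H (Real.log a)) τ) ≤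
    4 * L ^ (4 * κ) * (A ^ n * Vt K H τ₁ + (A ^ n * Vt K H τ₁) ^ 2 / Nf K f) := by
  have haR : (0 : ℝ) < a := by exact_mod_cast ha
  have hN := one_le_Nf hf
  have hV := Vt_pos H hH τ
  have hV1 := Vt_pos H hH τ₁
  have hVm := Vt_mono H hH hτ
  have hAn : 1 ≤ A ^ n := one_le_pow₀ hA
  rw [VV_eq hK f H hH, VV_eq hK ⊤ H hH, Nf_top, Real.exp_log haR, mul_one]
  set W : ℝ := (a : ℝ) ^ n * Vt K H τ / 4 ^ n with hW
  have hW0 : 0 < W := by positivity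
  have e1 : (a : ℝ) ^ n * Vt K H τ / (4 ^ n * Nf K f) = W / Nf K f := by
    rw [hW]; field_simp
  rw [e1]
  have hN0 : 0 < Nf K f := by linarith
  have hWV : W ≤ A ^ n * Vt K H τ₁ := by
    have h4 : (1 : ℝ) ≤ 4 ^ n := one_le_pow₀ (by norm_num)
    calc W ≤ (a : ℝ) ^ n * Vt K H τ := div_le_self (by positivity) h4
      _ ≤ A ^ n * Vt K H τ₁ := by gcongr
  have hLN : Nf K f ≤ L := le_trans (le_mul_of_one_le_right hN0.le hAn) hL
  have hL2 : L ≤ L ^ 2 := by nlinarith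
  have key := num (U₁ := A ^ n * Vt K H τ₁) (U₂ := A ^ n * Vt K H τ₁)
    (U₃ := (A ^ n * Vt K H τ₁) ^ 2 / Nf K f) hκ hκ1 hL1 (div_pos hW0 hN0) hW0 ?_ ?_ ?_ hWV ?_
  · refine key.trans ?_
    have h5 : 0 ≤ (A ^ n * Vt K H τ₁) ^ 2 / Nf K f := by positivity
    have h6 : 0 < L ^ (4 * κ) := by positivity
    nlinarith [mul_nonneg h6.le h5]
  · have e2 : W / Nf K f / W = (Nf K f)⁻¹ := by field_simp
    rw [e2]
    exact (inv_le_one_of_one_le₀ hN).trans (by nlinarith)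
  · have e2 : W / (W / Nf K f) = Nf K f := by field_simp
    rw [e2]
    exact hLN.trans hL2
  · exact (div_le_self hW0.le hN).trans hWV
  · rw [div_mul_eq_mul_div, ← sq]
    gcongr

/-- the volumes for two points at different scales -/
theorem numB {n : ℕ} (hK : Module.finrank ℚ K = n) {f : Ideal (𝓞 K)} (hf : f ≠ ⊥)
    (H : InfinitePlace K → ℝ) (hH : ∀ v, 1 ≤ H v) {κ A τ₁ τ : ℝ} (hκ : 0 < κ) (hκ1 : κ ≤ 1)
    (hA : 1 ≤ A) (hτ : τ₁ ≤ τ) {a a' : ℕ} (ha : 0 < a) (haA : (a : ℝ) ≤ A) (ha' : 0 < a')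
    (haA' : (a' : ℝ) ≤ A) {L : ℝ} (hL : Nf K f * A ^ n ≤ L) (hL1 : 1 ≤ L) :
    (VV K f (sh H (Real.log (a * a'))) τ / VV K ⊤ (sh H 0) τ +
      VV K ⊤ (sh H 0) τ / VV K f (sh H (Real.log (a * a'))) τ) ^ κ *
      (VV K f (sh H (Real.log (a * a'))) τ + VV K ⊤ (sh H 0) τ +
        VV K f (sh H (Real.log (a * a'))) τ * VV K ⊤ (sh H 0) τ) ≤
    2 * L ^ (4 * κ) * (A ^ n * (A ^ n * Vt K H τ₁) / Nf K f + A ^ n * Vt K H τ₁ / A ^ n +
      (A ^ n * Vt K H τ₁) ^ 2 / Nf K f) := by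
  have haR : (0 : ℝ) < a := by exact_mod_cast ha
  have haR' : (0 : ℝ) < a' := by exact_mod_cast ha'
  have ha1 : (1 : ℝ) ≤ a := by exact_mod_cast ha
  have ha1' : (1 : ℝ) ≤ a' := by exact_mod_cast ha'
  have hN := one_le_Nf hf
  have hV := Vt_pos H hH τ
  have hV1 := Vt_pos H hH τ₁
  have hVm := Vt_mono H hH hτ
  have hA0 : 0 < A := by linarith
  have hAn : 1 ≤ A ^ n := one_le_pow₀ hA
  have h4 : (1 : ℝ) ≤ 4 ^ n := one_le_pow₀ (by norm_num)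
  have hN0 : 0 < Nf K f := by linarith
  rw [VV_eq hK f H hH, VV_eq hK ⊤ H hH, Nf_top, Real.exp_log (by positivity), mul_one,
    Real.exp_zero, one_pow, one_mul]
  set W : ℝ := Vt K H τ / 4 ^ n with hW
  set q : ℝ := ((a : ℝ) * a') ^ n with hq
  have hW0 : 0 < W := by positivity
  have hq1 : 1 ≤ q := one_le_pow₀ (one_le_mul_of_one_le_of_one_le ha1 ha1')
  have hq0 : 0 < q := by linarith
  have hqA : q ≤ A ^ n * A ^ n := by
    rw [hq, mul_pow]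
    gcongr
  have e1 : q * Vt K H τ / (4 ^ n * Nf K f) = q * W / Nf K f := by
    rw [hW]; field_simp
  rw [e1]
  have hWV : W ≤ Vt K H τ₁ := (div_le_self hV.le h4).trans hVm
  have hLA : A ^ n ≤ L := le_trans (le_mul_of_one_le_left (by positivity) hN) hL
  have hLN : Nf K f ≤ L := le_trans (le_mul_of_one_le_right hN0.le hAn) hL
  have hL2 : L ≤ L ^ 2 := by nlinarith
  refine num hκ hκ1 hL1 (by positivity) hW0 ?_ ?_ ?_ ?_ ?_
  · have e2 : q * W / Nf K f / W = q / Nf K f := by field_simp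
    rw [e2]
    calc q / Nf K f ≤ q := div_le_self hq0.le hN
      _ ≤ A ^ n * A ^ n := hqA
      _ ≤ L * L := by gcongr
      _ = L ^ 2 := (sq L).symm
  · have e2 : W / (q * W / Nf K f) = Nf K f / q := by field_simp
    rw [e2]
    exact (div_le_self hN0.le hq1).trans (hLN.trans hL2)
  · calc q * W / Nf K f ≤ (A ^ n * A ^ n) * Vt K H τ₁ / Nf K f := by gcongr
      _ = _ := by ring
  · refine hWV.trans (le_of_eq ?_)
    field_simp
  · calc q * W / Nf K f * W ≤ (A ^ n * A ^ n) * Vt K H τ₁ / Nf K f * Vt K H τ₁ := by gcongr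
      _ = _ := by ring

end NF

end Pool.Agent.H23.BG.N2
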