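import Pool.Agent.H19.BG.FMa

/-! `FM`: the first moment of the counting function. -/

set_option autoImplicit false

open NumberField NumberField.InfinitePlace NumberField.Units
  NumberField.Units.dirichletUnitTheorem MeasureTheory Set Filter Complex
open scoped nonZeroDivisors ENNReal

namespace Pool.Agent.H23.BG

open Pool.Agent.H25.HK Pool.Agent.H23.LB Pool.Agent.H23.LC Pool.Agent.H29.DW
open Pool.Agent.H61.GLB (countable_K yM_add yM_cont)
open Pool.Agent.H39.DW (th_sub th_meas prod_bd)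

namespace FM

section NF

variable {K : Type} [Field K] [NumberField K]

theorem exp_two_log : Real.exp (2 * Real.log 4) = 16 := by
  rw [show 2 * Real.log 4 = Real.log 4 + Real.log 4 by ring, Real.exp_add,
    Real.exp_log (by norm_num)]
  norm_num

theorem qK_bd {n : ℕ} (hK : Module.finrank ℚ K = n) (y : InfinitePlace K → ℝ) (x : K)
    (h : ∀ v : InfinitePlace K, v x * Real.exp (y v / 2) ≤ 4) :
    qK K (fun v => y v - 2 * Real.log 4) x ≤ n := by
  have h1 : ∑ v : InfinitePlace K, (v.mult : ℝ) = n := by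
    have := sum_mult hK
    exact_mod_cast this
  rw [← h1]
  unfold qK
  refine Finset.sum_le_sum fun v _ => ?_
  have h2 : Real.exp (y v - 2 * Real.log 4) = Real.exp (y v / 2) * Real.exp (y v / 2) / 16 := by
    rw [Real.exp_sub, exp_two_log, ← Real.exp_add]
    congr 2
    ring
  have h3 : 0 ≤ v x * Real.exp (y v / 2) := mul_nonneg (apply_nonneg _ _) (Real.exp_pos _).le
  have h4 : (v x * Real.exp (y v / 2)) ^ 2 ≤ 16 := by nlinarith [h v]
  have h5 : Real.exp (y v - 2 * Real.log 4) * (v x) ^ 2 ≤ 1 := by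
    rw [h2]
    nlinarith
  have h6 : (0 : ℝ) ≤ v.mult := Nat.cast_nonneg _
  calc (v.mult : ℝ) * Real.exp (y v - 2 * Real.log 4) * (v x) ^ 2
      = (v.mult : ℝ) * (Real.exp (y v - 2 * Real.log 4) * (v x) ^ 2) := by ring
    _ ≤ (v.mult : ℝ) * 1 := mul_le_mul_of_nonneg_left h5 h6
    _ = (v.mult : ℝ) := mul_one _

theorem prod_H {n : ℕ} (hK : Module.finrank ℚ K = n) (C₃ : ℝ) (hC₃ : 0 ≤ C₃)
    (H : InfinitePlace K → ℝ) (hH : ∀ v, 1 ≤ H v) :
    ∏ v, (C₃ * H v ^ (-(dg (rv v) : ℝ))) ≤ (max 1 C₃) ^ n * (HH H)⁻¹ := by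
  have h := prod_bd hK 0 C₃ 1 hC₃ le_rfl H hH (fun _ => 0) (fun _ => le_rfl)
  simpa using h

/-- the theta function at the shifted position, without the constant term -/
noncomputable def tt (M : FI K) (q : logSpace K × ℝ) : ℝ≥0∞ :=
  ENNReal.ofReal (th K M (fun v => yM K M q.2 q.1 v - 2 * Real.log 4) - 1)

theorem tt_meas (hTH : T_TH) (M : FI K) (hM : M ≠ 0) : Measurable (tt M) :=
  th_meas hTH M hM _

open scoped Classical in
theorem key {n : ℕ} {C₂ C₃ : ℝ} (hC₂ : 0 ≤ C₂) (hC₃ : 0 ≤ C₃) (hTH : T_TH)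
    (hK : Module.finrank ℚ K = n)
    (h2 : ∀ f : InfinitePlace K → ℝ → ℝ≥0∞, (∀ v, Measurable (f v)) →
      ∫⁻ b in BX K n, ∏ v, f v (yc K b.2 b.1 v) ≤ ENNReal.ofReal C₂ *
        ∏ v, ∫⁻ s in Icc (-(1 / (n : ℝ))) (1 / (n : ℝ)), f v s)
    (h3 : ∀ (r : Bool) (H : ℝ) (a : ℂ), 1 ≤ H → Rl r a →
      ∫⁻ b in Icc (-(1 / (n : ℝ))) (1 / (n : ℝ)), ∫⁻ θ in Icc (0 : ℝ) (2 * Real.pi),
        (if H * ‖a * ((Real.exp (b / 2) : ℝ) : ℂ) * aq r θ - 1‖ ≤ 1 / 8 then (1 : ℝ≥0∞)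
          else 0) ≤
      if 1 / 4 ≤ ‖a‖ ∧ ‖a‖ ≤ 4 then ENNReal.ofReal (C₃ * H ^ (-(dg r : ℝ))) else 0)
    (M : FI K) (H : InfinitePlace K → ℝ) (hM : M ≠ 0) (hH : ∀ v, 1 ≤ H v)
    (z : logSpace K) (τ : ℝ) :
    ∫⁻ b in BX K n, gg M H (z + b.1, τ + b.2) ≤
      ENNReal.ofReal (C₂ * ((max 1 C₃) ^ n * (HH H)⁻¹) * Real.exp (Real.pi * n)) *
        tt M (z, τ) := by
  unfold tt
  have hcount := countable_K K
  have hHH : 0 < HH H := lt_of_lt_of_le one_pos (one_le_HH hH)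
  set F : {x : K // x ∈ M} → InfinitePlace K → ℝ → ℝ≥0∞ := fun x v t =>
    fb (rv v) (H v) (v (x : K) * Real.exp (yM K M τ z v / 2) * Real.exp (t / 2)) with hF
  have hFm : ∀ x v, Measurable (F x v) := by
    intro x v
    rw [hF]
    refine (fb_meas _ _).comp ?_
    fun_prop
  have e1 : ∀ b : logSpace K × ℝ, gg M H (z + b.1, τ + b.2) =
      ∑' x : {x : K // x ∈ M}, ∏ v, F x v (yc K b.2 b.1 v) := by
    intro b
    unfold gg
    refine tsum_congr fun x => Finset.prod_congr rfl fun v _ => ?_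
    rw [hF]
    simp only
    rw [yM_add, add_div, Real.exp_add, mul_assoc]
  have hm : ∀ x : {x : K // x ∈ M}, Measurable (fun b : logSpace K × ℝ =>
      ∏ v, F x v (yc K b.2 b.1 v)) := by
    intro x
    refine Finset.measurable_fun_prod _ fun v _ => (hFm x v).comp ?_
    exact ((continuous_apply v).comp (Pool.Agent.H61.GLB.yc_cont K)).measurable
  rw [lintegral_congr e1, lintegral_tsum fun x => (hm x).aemeasurable]
  set D : ℝ := C₂ * ((max 1 C₃) ^ n * (HH H)⁻¹) * Real.exp (Real.pi * n) with hD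
  have hD0 : 0 ≤ D := by positivity
  have hpt : ∀ x : {x : K // x ∈ M}, ∫⁻ b in BX K n, ∏ v, F x v (yc K b.2 b.1 v) ≤
      ENNReal.ofReal D * (if x.1 = 0 then 0 else ENNReal.ofReal (Real.exp (-Real.pi *
          qK K (fun v => yM K M τ z v - 2 * Real.log 4) x.1))) := by
    intro x
    set a : InfinitePlace K → ℝ := fun v => v (x : K) * Real.exp (yM K M τ z v / 2) with ha
    have ha0 : ∀ v, 0 ≤ a v := fun v => mul_nonneg (apply_nonneg _ _) (Real.exp_pos _).le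
    have hv : ∀ v, ∫⁻ s in Icc (-(1 / (n : ℝ))) (1 / (n : ℝ)), F x v s ≤
        if 1 / 4 ≤ a v ∧ a v ≤ 4 then ENNReal.ofReal (C₃ * H v ^ (-(dg (rv v) : ℝ))) else 0 := by
      intro v
      have h5 := h3 (rv v) (H v) ((a v : ℝ) : ℂ) (hH v) (fun _ => Complex.ofReal_im _)
      rw [Complex.norm_real, Real.norm_eq_abs, abs_of_nonneg (ha0 v)] at h5
      refine le_trans (le_of_eq ?_) h5
      refine lintegral_congr fun s => ?_
      rw [hF]
      simp only [fb, ha, ind]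
      refine lintegral_congr fun θ => ?_
      push_cast
      rfl
    refine (h2 (F x) (hFm x)).trans ?_
    by_cases hall : ∀ v, 1 / 4 ≤ a v ∧ a v ≤ 4
    · have hx : x.1 ≠ 0 := by
        intro hx
        have v : InfinitePlace K := Classical.arbitrary _
        have h6 := (hall v).1
        have h7 : a v = 0 := by
          rw [ha]
          simp only
          rw [hx, map_zero, zero_mul]
        linarith
      rw [if_neg hx]
      have hq := qK_bd hK (yM K M τ z) x.1 fun v => (hall v).2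
      have hq2 : (1 : ℝ) ≤ Real.exp (Real.pi * n) * Real.exp (-Real.pi *
          qK K (fun v => yM K M τ z v - 2 * Real.log 4) x.1) := by
        rw [← Real.exp_add]
        apply Real.one_le_exp
        have := Real.pi_pos
        nlinarith
      calc ENNReal.ofReal C₂ * ∏ v, ∫⁻ s in Icc (-(1 / (n : ℝ))) (1 / (n : ℝ)), F x v s
          ≤ ENNReal.ofReal C₂ * ∏ v, ENNReal.ofReal (C₃ * H v ^ (-(dg (rv v) : ℝ))) := by
            gcongr with v
            have := hv v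
            rwa [if_pos (hall v)] at this
        _ = ENNReal.ofReal (C₂ * ∏ v, (C₃ * H v ^ (-(dg (rv v) : ℝ)))) := by
            rw [ENNReal.ofReal_mul hC₂, ENNReal.ofReal_prod_of_nonneg]
            intro v _
            have := hH v
            positivity
        _ ≤ ENNReal.ofReal (D * Real.exp (-Real.pi *
              qK K (fun v => yM K M τ z v - 2 * Real.log 4) x.1)) := by
            apply ENNReal.ofReal_le_ofReal
            calc C₂ * ∏ v, (C₃ * H v ^ (-(dg (rv v) : ℝ)))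
                ≤ C₂ * ((max 1 C₃) ^ n * (HH H)⁻¹) :=
                  mul_le_mul_of_nonneg_left (prod_H hK C₃ hC₃ H hH) hC₂
              _ = C₂ * ((max 1 C₃) ^ n * (HH H)⁻¹) * 1 := (mul_one _).symm
              _ ≤ C₂ * ((max 1 C₃) ^ n * (HH H)⁻¹) * (Real.exp (Real.pi * n) *
                  Real.exp (-Real.pi *
                    qK K (fun v => yM K M τ z v - 2 * Real.log 4) x.1)) :=
                  mul_le_mul_of_nonneg_left hq2 (by positivity)
              _ = _ := by rw [hD]; ring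
        _ = _ := ENNReal.ofReal_mul hD0
    · push Not at hall
      obtain ⟨v, hv'⟩ := hall
      have h0 : ∏ v, ∫⁻ s in Icc (-(1 / (n : ℝ))) (1 / (n : ℝ)), F x v s = 0 := by
        refine Finset.prod_eq_zero (Finset.mem_univ v) ?_
        have := hv v
        rw [if_neg (fun h => absurd h.2 (not_le.2 (hv' h.1)))] at this
        exact le_antisymm this bot_le
      rw [h0, mul_zero]
      exact bot_le
  refine (ENNReal.tsum_le_tsum hpt).trans (le_of_eq ?_)
  rw [ENNReal.tsum_mul_left, th_sub hTH M hM]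

end NF

end FM

open scoped Classical in
theorem pf_P_FM (hAVG : V_AVG) (hJB : V_JB) (hCT : V_CT) (hLV : P_LV) (hTH : T_TH) : P_FM := by
  intro n hn κ hκ hκ1
  obtain ⟨C₁, hC₁, h1⟩ := hAVG n hn
  obtain ⟨C₂, hC₂, h2⟩ := hJB n hn
  obtain ⟨C₃, hC₃, h3⟩ := hLV n hn
  obtain ⟨C₄, hC₄, h4⟩ := hCT n hn κ hκ hκ1
  have hmx : 0 ≤ max 1 C₃ := le_trans zero_le_one (le_max_left _ _)
  refine ⟨C₁ * (C₂ * (max 1 C₃) ^ n * Real.exp (Real.pi * n)) * (3 * (C₄ *
    (Real.exp 1 * 4 ^ n) ^ (1 + κ))), by positivity, ?_⟩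
  intro K _ _ hK ι _ M hM H τ₁ hH
  have hHH : 0 < HH H := lt_of_lt_of_le one_pos (one_le_HH hH)
  have hcw : 0 ≤ cw K := by unfold cw; positivity
  have hd : (0 : ℝ) < |(discr K : ℝ)| := abs_pos.2 (by exact_mod_cast discr_ne_zero K)
  simp only [FM.gg_eq]
  set D : ℝ := C₂ * ((max 1 C₃) ^ n * (HH H)⁻¹) * Real.exp (Real.pi * n) with hD
  have hD0 : 0 ≤ D := by positivity
  have hgm : ∀ c, Measurable (FM.gg (M c) H) := fun c => FM.gg_meas (M c) H
  have hgm' : ∀ c, Measurable (fun q : ℝ × logSpace K => FM.gg (M c) H (q.2, q.1)) := fun c =>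
    (hgm c).comp measurable_swap
  have htm : ∀ c, Measurable (FM.tt (M c)) := fun c => FM.tt_meas hTH (M c) (hM.1 c)
  have htm' : ∀ c, Measurable (fun q : ℝ × logSpace K => FM.tt (M c) (q.2, q.1)) := fun c =>
    (htm c).comp measurable_swap
  set E : ℝ := Real.exp (-τ₁) / Real.sqrt |(discr K : ℝ)| with hE
  have hE0 : 0 < E := by positivity
  set Z : ℝ := cw K * |(discr K : ℝ)| ^ ((1 + κ) / 2) with hZ
  have hZ0 : 0 ≤ Z := by positivity
  -- the volumes
  have hVV : ∀ τ : ℝ, τ₁ - 1 ≤ τ → 0 ≤ VV K ⊤ (fun _ => -(2 * Real.log 4)) τ ∧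
      VV K ⊤ (fun _ => -(2 * Real.log 4)) τ ≤ Real.exp 1 * 4 ^ n * E := by
    intro τ hτ
    have hNf : Nf K ⊤ = 1 := by unfold Nf; simp
    have hs : ∑ v : InfinitePlace K, (v.mult : ℝ) = n := by
      have := sum_mult hK
      exact_mod_cast this
    have h6 : VV K ⊤ (fun _ => -(2 * Real.log 4)) τ =
        Real.exp (-τ) * 4 ^ n / Real.sqrt |(discr K : ℝ)| := by
      unfold VV
      rw [hNf, mul_one, ← Finset.sum_mul, hs]
      congr 1
      rw [show -τ - (n : ℝ) * -(2 * Real.log 4) / 2 = -τ + n * Real.log 4 by ring, Real.exp_add,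
        Real.exp_nat_mul, Real.exp_log (by norm_num)]
    rw [h6]
    refine ⟨by positivity, ?_⟩
    have h7 : Real.exp (-τ) ≤ Real.exp 1 * Real.exp (-τ₁) := by
      rw [← Real.exp_add]
      exact Real.exp_le_exp.2 (by linarith)
    rw [hE]
    calc Real.exp (-τ) * 4 ^ n / Real.sqrt |(discr K : ℝ)|
        ≤ (Real.exp 1 * Real.exp (-τ₁)) * 4 ^ n / Real.sqrt |(discr K : ℝ)| := by gcongr
      _ = _ := by ring
  have hct : ∀ τ : ℝ, τ₁ - 1 ≤ τ → ∑ c, ∫⁻ z in Fd K, FM.tt (M c) (z, τ) ≤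
      ENNReal.ofReal (C₄ * Z * (Real.exp 1 * 4 ^ n * E) ^ (1 + κ)) := by
    intro τ hτ
    have h5 := (h4 K hK ι M hM ⊤ ⊤ (fun _ => -(2 * Real.log 4)) (fun _ => 0) τ top_ne_bot
      top_ne_bot).2
    simp only [FractionalIdeal.coeIdeal_top, one_mul, ← sub_eq_add_neg] at h5
    unfold FM.tt
    refine h5.trans (ENNReal.ofReal_le_ofReal ?_)
    refine mul_le_mul_of_nonneg_left ?_ (by positivity)
    exact Real.rpow_le_rpow (hVV τ hτ).1 (hVV τ hτ).2 (by linarith)
  have hfin : ∀ c, Measurable (fun τ : ℝ => ∫⁻ z in Fd K, FM.gg (M c) H (z, τ)) := fun c =>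
    (hgm' c).lintegral_prod_right'
  have hfin2 : ∀ c, Measurable (fun τ : ℝ => ∫⁻ z in Fd K, FM.tt (M c) (z, τ)) := fun c =>
    (htm' c).lintegral_prod_right'
  calc ∫⁻ τ in Icc τ₁ (τ₁ + 1), ∑ c, ∫⁻ z in Fd K, FM.gg (M c) H (z, τ)
      = ∑ c, ∫⁻ τ in Icc τ₁ (τ₁ + 1), ∫⁻ z in Fd K, FM.gg (M c) H (z, τ) :=
        lintegral_finsetSum _ fun c _ => hfin c
    _ = ∑ c, ∫⁻ z in Fd K, ∫⁻ τ in Icc τ₁ (τ₁ + 1), FM.gg (M c) H (z, τ) := by
        refine Finset.sum_congr rfl fun c _ => ?_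
        exact lintegral_lintegral_swap (hgm' c).aemeasurable
    _ ≤ ∑ c, ENNReal.ofReal C₁ * ∫⁻ z in Fd K, ∫⁻ τ in Icc (τ₁ - 1) (τ₁ + 2),
          ∫⁻ b in BX K n, FM.gg (M c) H (z + b.1, τ + b.2) :=
        Finset.sum_le_sum fun c _ => h1 K hK (FM.gg (M c) H) (hgm c)
          (fun z l hl τ => FM.gg_unit (M c) H z τ l hl) τ₁
    _ ≤ ∑ c, ENNReal.ofReal C₁ * ∫⁻ z in Fd K, ∫⁻ τ in Icc (τ₁ - 1) (τ₁ + 2),
          ENNReal.ofReal D * FM.tt (M c) (z, τ) := by
        gcongr with c _ z τ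
        exact FM.key hC₂ hC₃ hTH hK (h2 K hK) h3 (M c) H (hM.1 c) hH z τ
    _ = ENNReal.ofReal C₁ * (ENNReal.ofReal D * ∑ c, ∫⁻ z in Fd K,
          ∫⁻ τ in Icc (τ₁ - 1) (τ₁ + 2), FM.tt (M c) (z, τ)) := by
        rw [Finset.mul_sum, Finset.mul_sum]
        refine Finset.sum_congr rfl fun c _ => ?_
        simp only [lintegral_const_mul' _ _ ENNReal.ofReal_ne_top]
    _ = ENNReal.ofReal C₁ * (ENNReal.ofReal D * ∫⁻ τ in Icc (τ₁ - 1) (τ₁ + 2), ∑ c,
          ∫⁻ z in Fd K, FM.tt (M c) (z, τ)) := by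
        congr 2
        rw [lintegral_finsetSum _ fun c _ => hfin2 c]
        refine Finset.sum_congr rfl fun c _ => ?_
        exact lintegral_lintegral_swap (htm c).aemeasurable
    _ ≤ ENNReal.ofReal C₁ * (ENNReal.ofReal D * ∫⁻ _τ in Icc (τ₁ - 1) (τ₁ + 2),
          ENNReal.ofReal (C₄ * Z * (Real.exp 1 * 4 ^ n * E) ^ (1 + κ))) := by
        gcongr ENNReal.ofReal C₁ * (ENNReal.ofReal D * ?_)
        exact setLIntegral_mono measurable_const fun τ hτ => hct τ hτ.1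
    _ = ENNReal.ofReal (C₁ * (D * (C₄ * Z * (Real.exp 1 * 4 ^ n * E) ^ (1 + κ) * 3))) := by
        rw [setLIntegral_const, Real.volume_Icc, show τ₁ + 2 - (τ₁ - 1) = 3 by ring,
          ← ENNReal.ofReal_mul (by positivity), ← ENNReal.ofReal_mul hD0,
          ← ENNReal.ofReal_mul hC₁]
    _ = _ := by
        congr 1
        rw [Real.mul_rpow (by positivity) hE0.le, hD]
        ring

end Pool.Agent.H23.BG
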