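import Pool.Agent.H23.BG.TargetsP

/-! `LV`: the local volume. -/

set_option autoImplicit false

open MeasureTheory Set Filter Complex
open scoped ENNReal

namespace Pool.Agent.H23.BG

open Pool.Agent.H29.DW

namespace LV

theorem norm_aq (r : Bool) (θ : ℝ) : ‖aq r θ‖ = 1 := by
  unfold aq
  split_ifs <;> simp [Complex.norm_exp]

/-- A set of real numbers of small diameter. -/
theorem vol_le (S : Set ℝ) (d : ℝ) (h : ∀ x ∈ S, ∀ y ∈ S, |x - y| ≤ d) :
    volume S ≤ ENNReal.ofReal d := by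
  refine (Real.volume_le_diam S).trans ?_
  refine Metric.ediam_le fun x hx y hy => ?_
  rw [edist_dist, Real.dist_eq]
  exact ENNReal.ofReal_le_ofReal (h x hx y hy)

/-- The angles for which `ρ exp(i θ) u` is near a point. -/
theorem vol_angle (ρ δ : ℝ) (v z : ℂ) (hρ : 7 / 8 ≤ ρ) (hδ : 0 ≤ δ) (hv : ‖v‖ = ρ) :
    volume ({θ : ℝ | ‖v * cexp (θ * I) - z‖ ≤ δ} ∩ Icc 0 (2 * Real.pi)) ≤
      ENNReal.ofReal (8 * δ) := by
  have hpi := Real.pi_pos
  have key : ∀ x y : ℝ, ‖v * cexp (x * I) - z‖ ≤ δ → ‖v * cexp (y * I) - z‖ ≤ δ →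
      |x - y| ≤ Real.pi → |x - y| ≤ 4 * δ := by
    intro x y hx hy hxy
    have h1 : ‖v * cexp (x * I) - v * cexp (y * I)‖ ≤ 2 * δ := by
      calc ‖v * cexp (x * I) - v * cexp (y * I)‖ =
          ‖(v * cexp (x * I) - z) - (v * cexp (y * I) - z)‖ := by congr 1; ring
        _ ≤ _ := (norm_sub_le _ _).trans (by linarith)
    have h2 : ‖v * cexp (x * I) - v * cexp (y * I)‖ = ρ * ‖cexp ((x - y : ℝ) * I) - 1‖ := by
      have : v * cexp (x * I) - v * cexp (y * I) =
          v * cexp (y * I) * (cexp ((x - y : ℝ) * I) - 1) := by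
        rw [mul_sub, mul_assoc, ← Complex.exp_add]
        push_cast
        ring_nf
      rw [this, norm_mul, norm_mul, hv, Complex.norm_exp_ofReal_mul_I, mul_one]
    have h3 : ‖cexp ((x - y : ℝ) * I) - 1‖ = 2 * |Real.sin ((x - y) / 2)| := by
      have := Complex.norm_exp_I_mul_ofReal_sub_one (x - y)
      rw [mul_comm I] at this
      rw [this, Real.norm_eq_abs, abs_mul]
      norm_num
    have h4 : |x - y| / Real.pi ≤ |Real.sin ((x - y) / 2)| := by
      have h5 : 2 / Real.pi * |(x - y) / 2| ≤ |Real.sin ((x - y) / 2)| := by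
        apply Real.mul_abs_le_abs_sin
        rw [abs_div, abs_two]
        linarith
      refine le_trans (le_of_eq ?_) h5
      rw [abs_div, abs_two]
      field_simp
    have h6 : ρ * (2 * |Real.sin ((x - y) / 2)|) ≤ 2 * δ := by rw [← h3, ← h2]; exact h1
    have h7 : |Real.sin ((x - y) / 2)| ≤ 8 / 7 * δ := by
      have := abs_nonneg (Real.sin ((x - y) / 2))
      nlinarith
    have h8 : |x - y| ≤ Real.pi * (8 / 7 * δ) := by
      have h9 : |x - y| / Real.pi ≤ 8 / 7 * δ := h4.trans h7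
      rwa [div_le_iff₀ hpi, mul_comm] at h9
    have h10 : Real.pi ≤ 3.15 := Real.pi_lt_d2.le
    nlinarith
  have hsub : {θ : ℝ | ‖v * cexp (θ * I) - z‖ ≤ δ} ∩ Icc 0 (2 * Real.pi) ⊆
      ({θ : ℝ | ‖v * cexp (θ * I) - z‖ ≤ δ} ∩ Icc 0 Real.pi) ∪
      ({θ : ℝ | ‖v * cexp (θ * I) - z‖ ≤ δ} ∩ Icc Real.pi (2 * Real.pi)) := by
    rintro θ ⟨h1, h2, h3⟩
    rcases le_total θ Real.pi with h | h
    · exact Or.inl ⟨h1, h2, h⟩
    · exact Or.inr ⟨h1, h, h3⟩
  refine (measure_mono hsub).trans ((measure_union_le _ _).trans ?_)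
  have e : ENNReal.ofReal (8 * δ) = ENNReal.ofReal (4 * δ) + ENNReal.ofReal (4 * δ) := by
    rw [← ENNReal.ofReal_add (by positivity) (by positivity)]
    congr 1; ring
  rw [e]
  refine add_le_add (vol_le _ _ ?_) (vol_le _ _ ?_)
  · rintro x ⟨hx, hx1, hx2⟩ y ⟨hy, hy1, hy2⟩
    exact key x y hx hy (by rw [abs_le]; constructor <;> linarith)
  · rintro x ⟨hx, hx1, hx2⟩ y ⟨hy, hy1, hy2⟩
    exact key x y hx hy (by rw [abs_le]; constructor <;> linarith)

/-- The set of the `b` for which the absolute value is near `1`. -/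
theorem vol_rad (a δ : ℝ) (hδ : 0 ≤ δ) (hδ1 : δ ≤ 1 / 8) :
    volume {b : ℝ | |a * Real.exp (b / 2) - 1| ≤ δ} ≤ ENNReal.ofReal (5 * δ) := by
  refine vol_le _ _ ?_
  have key : ∀ x y : ℝ, |a * Real.exp (x / 2) - 1| ≤ δ → |a * Real.exp (y / 2) - 1| ≤ δ →
      x - y ≤ 5 * δ := by
    intro x y hx hy
    rw [abs_le] at hx hy
    have hex := Real.exp_pos (x / 2)
    have hey := Real.exp_pos (y / 2)
    have ha : 0 < a := by
      by_contra h
      push Not at h
      nlinarith [mul_nonpos_of_nonpos_of_nonneg h hey.le]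
    have h1 : Real.exp (x / 2) = Real.exp (y / 2) * Real.exp ((x - y) / 2) := by
      rw [← Real.exp_add]; congr 1; ring
    have h2 : (x - y) / 2 + 1 ≤ Real.exp ((x - y) / 2) := Real.add_one_le_exp _
    have h3 : a * Real.exp (y / 2) * Real.exp ((x - y) / 2) ≤ 1 + δ := by
      rw [mul_assoc, ← h1]; linarith
    have h4 : 1 - δ ≤ a * Real.exp (y / 2) := by linarith
    have h5 : (1 - δ) * Real.exp ((x - y) / 2) ≤ 1 + δ :=
      (mul_le_mul_of_nonneg_right h4 (Real.exp_pos _).le).trans h3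
    have h6 : (1 - δ) * ((x - y) / 2 + 1) ≤ 1 + δ :=
      (mul_le_mul_of_nonneg_left h2 (by linarith)).trans h5
    nlinarith
  intro x hx y hy
  rw [abs_le]
  constructor
  · have := key y x hy hx; linarith
  · exact key x y hx hy

/-- the exponential near zero -/
theorem exp_bd {b : ℝ} (h : |b| ≤ 1) : 0.6 ≤ Real.exp (b / 2) ∧ Real.exp (b / 2) ≤ 1.7 := by
  rw [abs_le] at h
  have h5 : Real.exp (-(1 / 2 : ℝ)) * Real.exp (-(1 / 2 : ℝ)) = Real.exp (-1) := by
    rw [← Real.exp_add]; norm_num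
  have h6 := Real.exp_neg_one_gt_d9
  have h3 := Real.exp_pos (-(1 / 2 : ℝ))
  have h4 : (0.6 : ℝ) ≤ Real.exp (-(1 / 2)) := by nlinarith
  constructor
  · exact h4.trans (Real.exp_le_exp.2 (by linarith [h.1]))
  · have h7 : Real.exp (b / 2) ≤ Real.exp (1 / 2) := Real.exp_le_exp.2 (by linarith [h.2])
    have h8 : Real.exp (1 / 2 : ℝ) * Real.exp (-(1 / 2 : ℝ)) = 1 := by
      rw [← Real.exp_add]; norm_num
    have h9 := Real.exp_pos (1 / 2 : ℝ)
    have h10 : Real.exp (1 / 2 : ℝ) ≤ 1.7 := by nlinarith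
    exact h7.trans h10

end LV

open scoped Classical in
theorem pf_P_LV : P_LV := by
  intro n hn
  have hpi := Real.pi_pos
  have hpi2 : Real.pi ≤ 3.15 := Real.pi_lt_d2.le
  refine ⟨4, by norm_num, ?_⟩
  intro r H a hH ha
  set δ : ℝ := 1 / (8 * H) with hδ
  have hH0 : 0 < H := by linarith
  have hδ0 : 0 < δ := by positivity
  have hδ1 : δ ≤ 1 / 8 := by
    rw [hδ]
    apply one_div_le_one_div_of_le (by norm_num)
    linarith
  have hnn : (1 : ℝ) ≤ n := by exact_mod_cast hn
  have hn1 : 1 / (n : ℝ) ≤ 1 := by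
    rw [div_le_one (by linarith)]; exact hnn
  have hcond : ∀ w : ℂ, H * ‖w - 1‖ ≤ 1 / 8 ↔ ‖w - 1‖ ≤ δ := by
    intro w
    have h0 : ‖w - 1‖ ≤ δ ↔ ‖w - 1‖ * (8 * H) ≤ 1 := by
      rw [hδ]
      exact le_div_iff₀ (by positivity)
    rw [h0]
    constructor <;> intro h <;> linarith
  have hnorm : ∀ b θ : ℝ, ‖a * ((Real.exp (b / 2) : ℝ) : ℂ) * aq r θ‖ =
      ‖a‖ * Real.exp (b / 2) := by
    intro b θ
    rw [norm_mul, norm_mul, LV.norm_aq, mul_one, Complex.norm_real,
      Real.norm_of_nonneg (Real.exp_pos _).le]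
  have hrad : ∀ b θ : ℝ, ‖a * ((Real.exp (b / 2) : ℝ) : ℂ) * aq r θ - 1‖ ≤ δ →
      |‖a‖ * Real.exp (b / 2) - 1| ≤ δ := by
    intro b θ h
    have := abs_norm_sub_norm_le (a * ((Real.exp (b / 2) : ℝ) : ℂ) * aq r θ) 1
    rw [hnorm, norm_one] at this
    exact this.trans h
  simp only [hcond]
  by_cases hbig : ¬ (1 / 4 ≤ ‖a‖ ∧ ‖a‖ ≤ 4)
  · -- everything vanishes
    rw [if_neg hbig]
    refine le_of_eq ?_
    refine MeasureTheory.setLIntegral_eq_zero measurableSet_Icc ?_
    intro b hb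
    refine MeasureTheory.setLIntegral_eq_zero measurableSet_Icc ?_
    intro θ _
    show (if _ then (1 : ℝ≥0∞) else 0) = 0
    rw [if_neg]
    intro h
    have h1 := hrad b θ h
    have hb1 : |b| ≤ 1 := abs_le.2 ⟨by linarith [hb.1], hb.2.trans hn1⟩
    obtain ⟨h2, h3⟩ := LV.exp_bd hb1
    rw [abs_le] at h1
    have h4 := norm_nonneg a
    refine hbig ⟨?_, ?_⟩
    · by_contra h5
      push Not at h5
      nlinarith
    · by_contra h5
      push Not at h5
      nlinarith
  · push Not at hbig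
    rw [if_pos (by tauto)]
    -- the inner integral
    set K : ℝ := if r then 2 * Real.pi else 8 * δ with hK
    have hK0 : 0 ≤ K := by rw [hK]; split_ifs <;> positivity
    have hin : ∀ b : ℝ, ∫⁻ θ in Icc (0 : ℝ) (2 * Real.pi),
        (if ‖a * ((Real.exp (b / 2) : ℝ) : ℂ) * aq r θ - 1‖ ≤ δ then (1 : ℝ≥0∞) else 0) ≤
        ({b : ℝ | |‖a‖ * Real.exp (b / 2) - 1| ≤ δ}).indicator
          (fun _ => ENNReal.ofReal K) b := by
      intro b
      by_cases hb : |‖a‖ * Real.exp (b / 2) - 1| ≤ δ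
      · rw [Set.indicator_of_mem (by exact hb)]
        have hle : ∀ θ : ℝ,
            (if ‖a * ((Real.exp (b / 2) : ℝ) : ℂ) * aq r θ - 1‖ ≤ δ then (1 : ℝ≥0∞) else 0) ≤
            ({θ : ℝ | ‖a * ((Real.exp (b / 2) : ℝ) : ℂ) * aq r θ - 1‖ ≤ δ}).indicator
              (fun _ => 1) θ := by
          intro θ
          by_cases h : ‖a * ((Real.exp (b / 2) : ℝ) : ℂ) * aq r θ - 1‖ ≤ δ
          · rw [Set.indicator_of_mem (by exact h), if_pos h]
          · rw [Set.indicator_of_notMem (by exact h), if_neg h]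
        refine (lintegral_mono hle).trans ((lintegral_indicator_const_le _ _).trans ?_)
        rw [Measure.restrict_apply' measurableSet_Icc, one_mul]
        rw [hK]
        by_cases hr : r = true
        · rw [if_pos hr]
          refine (measure_mono inter_subset_right).trans ?_
          rw [Real.volume_Icc, sub_zero]
        · rw [if_neg hr]
          have := LV.vol_angle (‖a‖ * Real.exp (b / 2)) δ (a * ((Real.exp (b / 2) : ℝ) : ℂ)) 1
            (by rw [abs_le] at hb; linarith) hδ0.le (by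
              rw [norm_mul, Complex.norm_real, Real.norm_of_nonneg (Real.exp_pos _).le])
          refine le_trans (measure_mono ?_) this
          rintro θ ⟨h1, h2⟩
          refine ⟨?_, h2⟩
          have h1' : ‖a * ((Real.exp (b / 2) : ℝ) : ℂ) * aq r θ - 1‖ ≤ δ := h1
          have e : aq r θ = cexp (θ * I) := by unfold aq; rw [if_neg hr]
          rw [e] at h1'
          exact h1'
      · rw [Set.indicator_of_notMem (by exact hb)]
        rw [nonpos_iff_eq_zero]
        refine MeasureTheory.setLIntegral_eq_zero measurableSet_Icc ?_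
        intro θ _
        show (if _ then (1 : ℝ≥0∞) else 0) = 0
        rw [if_neg]
        intro h
        exact hb (hrad b θ h)
    refine (lintegral_mono hin).trans ((lintegral_indicator_const_le _ _).trans ?_)
    have hv : (volume.restrict (Icc (-(1 / (n : ℝ))) (1 / (n : ℝ))))
        {b : ℝ | |‖a‖ * Real.exp (b / 2) - 1| ≤ δ} ≤ ENNReal.ofReal (5 * δ) :=
      (Measure.restrict_apply_le _ _).trans (LV.vol_rad ‖a‖ δ hδ0.le hδ1)
    refine (mul_le_mul_right hv _).trans ?_
    rw [← ENNReal.ofReal_mul (by positivity)]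
    apply ENNReal.ofReal_le_ofReal
    rw [hK]
    by_cases hr : r = true
    · rw [if_pos hr]
      have e : H ^ (-(dg r : ℝ)) = H⁻¹ := by
        rw [hr]; simp [dg, Real.rpow_neg_one]
      rw [e]
      have e2 : δ = H⁻¹ / 8 := by rw [hδ]; field_simp
      rw [e2]
      have : 0 < H⁻¹ := by positivity
      nlinarith
    · rw [if_neg hr]
      have e : H ^ (-(dg r : ℝ)) = H⁻¹ ^ 2 := by
        simp only [dg, if_neg hr]
        rw [Real.rpow_neg hH0.le, inv_pow]
        norm_num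
      rw [e]
      have e2 : δ = H⁻¹ / 8 := by rw [hδ]; field_simp
      rw [e2]
      have : 0 < H⁻¹ := by positivity
      nlinarith

end Pool.Agent.H23.BG
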