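import Pool.Agent.H19.BG.FMa

/-! `MN`: measurability and invariance of the counting functions. -/

set_option autoImplicit false

open NumberField NumberField.InfinitePlace NumberField.Units
  NumberField.Units.dirichletUnitTheorem MeasureTheory Set Filter Complex
open scoped nonZeroDivisors ENNReal

namespace Pool.Agent.H23.BG

open Pool.Agent.H25.HK Pool.Agent.H23.LB Pool.Agent.H23.LC Pool.Agent.H29.DW
open Pool.Agent.H61.GLB (countable_K yM_cont)

theorem pf_P_MN : P_MN := by
  classical
  intro K _ _ f M H a r hM hH
  have := countable_K K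
  have hy : ∀ v : InfinitePlace K, Measurable
      (fun u : ℝ × logSpace K × (InfinitePlace K → ℝ) => yM K M u.1 u.2.1 v) := by
    intro v
    have h1 : Continuous (fun q : logSpace K × ℝ => yM K M q.2 q.1 v) :=
      (continuous_apply v).comp (yM_cont K M)
    exact (h1.comp (Continuous.prodMk (continuous_fst.comp continuous_snd)
      continuous_fst)).measurable
  have hθ : ∀ v : InfinitePlace K, Measurable
      (fun u : ℝ × logSpace K × (InfinitePlace K → ℝ) => u.2.2 v) := fun v =>
    (measurable_pi_apply v).comp (measurable_snd.comp measurable_snd)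
  refine ⟨?_, ?_, ?_⟩
  · simp only [FM.nn_eq]
    exact Measurable.tsum fun x => FM.tm_meas H x.1 _ hy _ hθ
  · unfold nu
    refine Measurable.tsum fun x => ?_
    by_cases h : x.1 - (a : K) * r ∈ (f : FI K) * M
    · simp only [h, true_and]
      exact FM.tm_meas H x.1 (fun u : ℝ × logSpace K × (InfinitePlace K → ℝ) => fun v =>
        yM K M u.1 u.2.1 v - 2 * Real.log a) (fun v => (hy v).sub_const _) _ hθ
    · simp only [h, false_and, if_false]
      exact measurable_const
  · intro τ z l hl
    rw [FM.gg_eq, FM.gg_eq]
    exact FM.gg_unit M H z τ l hl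

end Pool.Agent.H23.BG
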