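import Pool.Agent.H19.BG.FMb

/-! `N1`: the first moment of the multiplicities. -/

set_option autoImplicit false

open NumberField NumberField.InfinitePlace NumberField.Units
  NumberField.Units.dirichletUnitTheorem MeasureTheory Set Filter Complex
open scoped nonZeroDivisors ENNReal

namespace Pool.Agent.H23.BG

open Pool.Agent.H25.HK Pool.Agent.H23.LB Pool.Agent.H23.LC Pool.Agent.H29.DW
open Pool.Agent.H61.GLB (countable_K yM_add yM_cont)
open Pool.Agent.H28.RC (Rep)

namespace N1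

open scoped Classical in
theorem inner {K : Type} [Field K] [NumberField K] {n : ℕ} (hK : Module.finrank ℚ K = n)
    {f : Ideal (𝓞 K)} {M : FI K} {X : Finset K} (hX : Rep K f M X) (H : InfinitePlace K → ℝ)
    {P : Finset ℕ} (hP : ∀ a ∈ P, Ideal.span {(a : 𝓞 K)} ⊔ f = ⊤) (τ : ℝ) (z : logSpace K) :
    ∫⁻ θ in An K, ∑ r ∈ X, ∑ a ∈ P, nu K f M H a (yM K M τ z) (om true θ) r =
      ∑ a ∈ P, FM.gg M H (z, τ - n * Real.log a) := by
  have e1 : ∀ θ : InfinitePlace K → ℝ, ∑ r ∈ X, ∑ a ∈ P,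
      nu K f M H a (yM K M τ z) (om true θ) r =
      ∑ a ∈ P, nn K M H (yM K M (τ - n * Real.log a) z) (om true θ) := by
    intro θ
    rw [Finset.sum_comm]
    refine Finset.sum_congr rfl fun a ha => ?_
    rw [FM.nu_sum hX H (hP a ha)]
    have e2 : (fun v => yM K M τ z v - 2 * Real.log a) =
        yM K M (τ - n * Real.log a) z := by
      ext v
      rw [FM.yM_sub, hK]
    rw [e2]
  rw [lintegral_congr e1, lintegral_finsetSum _ fun a _ => FM.nn_meas M H _]
  exact Finset.sum_congr rfl fun a _ => FM.gg_eq M H z _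

end N1

open scoped Classical in
theorem pf_P_N1 (hFM : P_FM) : P_N1 := by
  intro n hn κ hκ hκ1
  obtain ⟨C, hC, h1⟩ := hFM n hn κ hκ hκ1
  refine ⟨C, hC, ?_⟩
  intro K _ _ hK f hf ι _ M hM X hX H P A τ₁ hH hA hP
  have hcop : ∀ a ∈ P, Ideal.span {(a : 𝓞 K)} ⊔ f = ⊤ := fun a ha => (hP a ha).2.2.2
  have hHH : 1 ≤ HH H := one_le_HH hH
  have hcw : 0 ≤ cw K := by unfold cw; positivity
  have hd0 : (0 : ℝ) < |(discr K : ℝ)| := abs_pos.2 (by exact_mod_cast discr_ne_zero K)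
  have hd1 : (1 : ℝ) ≤ |(discr K : ℝ)| := by
    have h2 : (1 : ℤ) ≤ |discr K| := Int.one_le_abs (discr_ne_zero K)
    exact_mod_cast h2
  have hsq : 1 ≤ Real.sqrt |(discr K : ℝ)| := by
    rw [Real.one_le_sqrt]
    exact hd1
  have hgm : ∀ c, Measurable (FM.gg (M c) H) := fun c => FM.gg_meas (M c) H
  have hgm' : ∀ c, Measurable (fun q : ℝ × logSpace K => FM.gg (M c) H (q.2, q.1)) := fun c =>
    (hgm c).comp measurable_swap
  have hfin : ∀ c, Measurable (fun τ : ℝ => ∫⁻ z in Fd K, FM.gg (M c) H (z, τ)) := fun c =>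
    (hgm' c).lintegral_prod_right'
  set Z : ℝ := cw K * |(discr K : ℝ)| ^ ((1 + κ) / 2) with hZ
  have hZ0 : 0 ≤ Z := by positivity
  set G : ℝ → ℝ≥0∞ := fun τ => ∑ c, ∫⁻ z in Fd K, FM.gg (M c) H (z, τ) with hG
  have hGm : Measurable G := Finset.measurable_fun_sum _ fun c _ => hfin c
  have hb : ∀ a ∈ P, ∫⁻ τ in Icc (τ₁ - n * Real.log a) (τ₁ - n * Real.log a + 1), G τ ≤
      ENNReal.ofReal (C * Z * (A ^ n * Vt K H τ₁) * (A ^ n * HH H * Real.exp |τ₁|) ^ κ) := by
    intro a ha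
    have h2 := h1 K hK ι M hM H (τ₁ - n * Real.log a) hH
    simp only [FM.gg_eq] at h2
    refine h2.trans (ENNReal.ofReal_le_ofReal ?_)
    obtain ⟨hpr, -, hle, -⟩ := hP a ha
    have ha0 : (0 : ℝ) < a := by exact_mod_cast hpr.pos
    have e1 : Real.exp (-(τ₁ - n * Real.log a)) = Real.exp (-τ₁) * (a : ℝ) ^ n := by
      rw [show -(τ₁ - n * Real.log a) = -τ₁ + n * Real.log a by ring, Real.exp_add,
        Real.exp_nat_mul, Real.exp_log ha0]
    set w : ℝ := Real.exp (-τ₁) * A ^ n / Real.sqrt |(discr K : ℝ)| with hw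
    have hw0 : 0 < w := by positivity
    have h3 : Real.exp (-(τ₁ - n * Real.log a)) / Real.sqrt |(discr K : ℝ)| ≤ w := by
      rw [e1, hw]
      gcongr
    have h4 : w ≤ A ^ n * HH H * Real.exp |τ₁| := by
      have h5 : Real.exp (-τ₁) ≤ Real.exp |τ₁| := Real.exp_le_exp.2 (neg_le_abs τ₁)
      have h6 : 0 < A ^ n := by positivity
      calc w ≤ Real.exp (-τ₁) * A ^ n := div_le_self (by positivity) hsq
        _ ≤ Real.exp |τ₁| * A ^ n := mul_le_mul_of_nonneg_right h5 h6.le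
        _ = A ^ n * 1 * Real.exp |τ₁| := by ring
        _ ≤ A ^ n * HH H * Real.exp |τ₁| := by gcongr
    calc C * (cw K * |(discr K : ℝ)| ^ ((1 + κ) / 2)) * (HH H)⁻¹ *
          (Real.exp (-(τ₁ - n * Real.log a)) / Real.sqrt |(discr K : ℝ)|) ^ (1 + κ)
        ≤ C * Z * (HH H)⁻¹ * w ^ (1 + κ) := by
          refine mul_le_mul_of_nonneg_left ?_ (by positivity)
          exact Real.rpow_le_rpow (by positivity) h3 (by linarith)
      _ = C * Z * ((HH H)⁻¹ * w) * w ^ κ := by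
          rw [Real.rpow_add hw0, Real.rpow_one]
          ring
      _ ≤ C * Z * ((HH H)⁻¹ * w) * (A ^ n * HH H * Real.exp |τ₁|) ^ κ := by
          refine mul_le_mul_of_nonneg_left ?_ (by positivity)
          exact Real.rpow_le_rpow hw0.le h4 hκ.le
      _ = _ := by
          congr 2
          rw [hw]
          unfold Vt
          field_simp
  calc ∫⁻ τ in Icc τ₁ (τ₁ + 1), ∑ c, ∫⁻ z in Fd K, ∫⁻ θ in An K, ∑ r ∈ X c,
      ∑ a ∈ P, nu K f (M c) H a (yM K (M c) τ z) (om true θ) r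
      = ∫⁻ τ in Icc τ₁ (τ₁ + 1), ∑ a ∈ P, G (τ - n * Real.log a) := by
        refine lintegral_congr fun τ => ?_
        rw [hG]
        simp only
        rw [Finset.sum_comm]
        refine Finset.sum_congr rfl fun c _ => ?_
        have hm : ∀ a ∈ P, Measurable (fun z : logSpace K =>
            FM.gg (M c) H (z, τ - n * Real.log a)) := fun a _ =>
          (hgm c).comp measurable_prodMk_right
        rw [← lintegral_finsetSum _ hm]
        exact lintegral_congr fun z => N1.inner hK (hX c) H hcop τ z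
    _ = ∑ a ∈ P, ∫⁻ τ in Icc τ₁ (τ₁ + 1), G (τ - n * Real.log a) :=
        lintegral_finsetSum _ fun a _ => hGm.comp (measurable_id.sub_const _)
    _ = ∑ a ∈ P, ∫⁻ τ in Icc (τ₁ - n * Real.log a) (τ₁ - n * Real.log a + 1), G τ :=
        Finset.sum_congr rfl fun a _ => FM.lint_shift G τ₁ _
    _ ≤ ∑ _a ∈ P, ENNReal.ofReal (C * Z * (A ^ n * Vt K H τ₁) *
          (A ^ n * HH H * Real.exp |τ₁|) ^ κ) := Finset.sum_le_sum hb
    _ = _ := by
        rw [Finset.sum_const, nsmul_eq_mul, ← ENNReal.ofReal_natCast,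
          ← ENNReal.ofReal_mul (Nat.cast_nonneg _)]
        congr 1
        ring

end Pool.Agent.H23.BG
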