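import Pool.Agent.H19.BG.N2e
import Pool.Agent.H19.BG.P_MN

/-! `N2`: the second moment of the multiplicities. -/

set_option autoImplicit false

open NumberField NumberField.InfinitePlace NumberField.Units
  NumberField.Units.dirichletUnitTheorem MeasureTheory Set Filter Complex
open scoped nonZeroDivisors ENNReal

namespace Pool.Agent.H23.BG

open Pool.Agent.H25.HK Pool.Agent.H23.LB Pool.Agent.H23.LC Pool.Agent.H29.DW
open Pool.Agent.H61.GLB (countable_K yM_add yM_cont)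
open Pool.Agent.H28.RC (Rep)

namespace N2

section NF

variable {K : Type} [Field K] [NumberField K]

open scoped Classical in
theorem tq_JM {ι : Type} (L M : ι → FI K) (a b : InfinitePlace K → ℝ) :
    JM (fun (c : ι) (τ : ℝ) (z : logSpace K) (_ : InfinitePlace K → ℝ) =>
      tq (L c) (M c) a b (z, τ)) := by
  intro c
  have h1 : Measurable (fun u : ℝ × logSpace K × (InfinitePlace K → ℝ) =>
      ((u.2.1, u.1) : logSpace K × ℝ)) :=
    (measurable_fst.comp measurable_snd).prodMk measurable_fst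
  exact (tq_meas (L c) (M c) a b).comp h1

open scoped Classical in
/-- the integral of a product of theta functions over the positions -/
theorem posn {n : ℕ} {κ C₄ : ℝ} (hC₄ : 0 ≤ C₄)
    (h4 : ∀ (K : Type) [Field K]
      [NumberField K], Module.finrank ℚ K = n → ∀ (ι : Type) [Fintype ι] (M : ι → FI K),
      Reps K M → ∀ (j₁ j₂ : Ideal (𝓞 K)) (a b : InfinitePlace K → ℝ) (τ : ℝ), j₁ ≠ ⊥ → j₂ ≠ ⊥ →
      ∑ c, ∫⁻ z in Fd K, ENNReal.ofReal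
        ((th K ((j₁ : FI K) * M c) (fun v => yM K (M c) τ z v + a v) - 1) *
          th K ((j₂ : FI K) * M c) (fun v => yM K (M c) τ z v + b v)) ≤
        ENNReal.ofReal (C₄ * (cw K * |(discr K : ℝ)| ^ ((1 + κ) / 2)) *
          ((VV K j₁ a τ / VV K j₂ b τ + VV K j₂ b τ / VV K j₁ a τ) ^ κ *
            (VV K j₁ a τ + VV K j₂ b τ + VV K j₁ a τ * VV K j₂ b τ))) ∧
      ∑ c, ∫⁻ z in Fd K, ENNReal.ofReal
        (th K ((j₁ : FI K) * M c) (fun v => yM K (M c) τ z v + a v) - 1) ≤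
        ENNReal.ofReal (C₄ * (cw K * |(discr K : ℝ)| ^ ((1 + κ) / 2)) * VV K j₁ a τ ^ (1 + κ)))
    (hK : Module.finrank ℚ K = n) {ι : Type} [Fintype ι] {M : ι → FI K} (hM : Reps K M)
    {f : Ideal (𝓞 K)} (hf : f ≠ ⊥) (a b : InfinitePlace K → ℝ) (τ₁ B : ℝ)
    (hB : ∀ τ, τ₁ ≤ τ → (VV K f a τ / VV K ⊤ b τ + VV K ⊤ b τ / VV K f a τ) ^ κ *
      (VV K f a τ + VV K ⊤ b τ + VV K f a τ * VV K ⊤ b τ) ≤ B) :
    II τ₁ (fun (c : ι) (τ : ℝ) (z : logSpace K) (_ : InfinitePlace K → ℝ) =>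
      tq ((f : FI K) * M c) (M c) a b (z, τ)) ≤
      ENNReal.ofReal ((2 * Real.pi) ^ n *
        (C₄ * (cw K * |(discr K : ℝ)| ^ ((1 + κ) / 2)) * B)) := by
  have hcw : 0 ≤ cw K := by unfold cw; positivity
  refine II_le fun τ hτ => ?_
  have h5 := (h4 K hK ι M hM f ⊤ a b τ hf top_ne_bot).1
  simp only [FractionalIdeal.coeIdeal_top, one_mul] at h5
  calc ∑ c, ∫⁻ z in Fd K, ∫⁻ _θ in An K, tq ((f : FI K) * M c) (M c) a b (z, τ)
      = ∑ c, ∫⁻ z in Fd K, tq ((f : FI K) * M c) (M c) a b (z, τ) * volume (An K) := by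
        refine Finset.sum_congr rfl fun c _ => lintegral_congr fun z => ?_
        rw [setLIntegral_const]
    _ = ∑ c, (∫⁻ z in Fd K, tq ((f : FI K) * M c) (M c) a b (z, τ)) * volume (An K) := by
        refine Finset.sum_congr rfl fun c _ => ?_
        have hm : Measurable (fun z : logSpace K => tq ((f : FI K) * M c) (M c) a b (z, τ)) :=
          (tq_meas ((f : FI K) * M c) (M c) a b).comp measurable_prodMk_right
        exact lintegral_mul_const _ hm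
    _ = (∑ c, ∫⁻ z in Fd K, tq ((f : FI K) * M c) (M c) a b (z, τ)) * volume (An K) :=
        (Finset.sum_mul _ _ _).symm
    _ ≤ ENNReal.ofReal (C₄ * (cw K * |(discr K : ℝ)| ^ ((1 + κ) / 2)) * B) *
          ENNReal.ofReal ((2 * Real.pi) ^ n) := by
        refine mul_le_mul' (h5.trans (ENNReal.ofReal_le_ofReal ?_)) (vol_An hK)
        exact mul_le_mul_of_nonneg_left (hB τ hτ) (by positivity)
    _ = _ := by
        rw [mul_comm, ← ENNReal.ofReal_mul (by positivity)]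

/-- from boxes to theta functions -/
theorem cb_th {C₃ : ℝ} (hC₃ : 1 ≤ C₃) (L M : FI K) (y y' : InfinitePlace K → ℝ)
    (h : 1 ≤ cb K L y ∧ cb K L y - 1 ≤ C₃ * (th K L y - 1))
    (h' : 1 ≤ cb K M y' ∧ cb K M y' ≤ C₃ * th K M y') :
    ENNReal.ofReal ((cb K L y - 1) * cb K M y') ≤ ENNReal.ofReal (C₃ ^ 2) *
      ENNReal.ofReal ((th K L y - 1) * th K M y') := by
  rw [← ENNReal.ofReal_mul (by positivity)]
  refine ENNReal.ofReal_le_ofReal ?_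
  calc (cb K L y - 1) * cb K M y' ≤ (C₃ * (th K L y - 1)) * (C₃ * th K M y') :=
        mul_le_mul h.2 h'.2 (by linarith [h'.1]) (by linarith [h.1, h.2])
    _ = _ := by ring

theorem ya_sh (H : InfinitePlace K → ℝ) (y : InfinitePlace K → ℝ) (a : ℕ) :
    (fun v => ya y a v + sh H 0 v) = fun v => y v + sh H (Real.log a) v := by
  funext v
  unfold ya sh
  ring

end NF

/-- rearrangement of the sums -/
theorem arr (P : Finset ℕ) (c f₃ : ℝ≥0∞) (f₁ x₂ g₂ : ℕ → ℝ≥0∞) (x₄ g₄ : ℕ → ℕ → ℝ≥0∞)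
    (h₂ : ∀ a ∈ P, x₂ a ≤ c * g₂ a) (h₄ : ∀ a ∈ P, ∀ a' ∈ P, x₄ a a' ≤ c * g₄ a a') :
    ∑ a ∈ P, (f₁ a + x₂ a) + ∑ a ∈ P, ∑ a' ∈ P, (f₃ + x₄ a a') ≤
      ∑ a ∈ P, f₁ a + (ENNReal.ofReal ((P.card : ℝ) ^ 2) * f₃ +
        c * (∑ a ∈ P, g₂ a + ∑ a ∈ P, ∑ a' ∈ P, g₄ a a')) := by
  have e2 : ENNReal.ofReal ((P.card : ℝ) ^ 2) * f₃ = ∑ _a ∈ P, ∑ _a' ∈ P, f₃ := by
    rw [Finset.sum_const, Finset.sum_const, smul_smul, nsmul_eq_mul,
      ENNReal.ofReal_pow (Nat.cast_nonneg _), ENNReal.ofReal_natCast]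
    push_cast
    ring
  rw [e2, mul_add, Finset.mul_sum, Finset.mul_sum]
  simp only [Finset.mul_sum, Finset.sum_add_distrib]
  have hs2 := Finset.sum_le_sum h₂
  have hs4 := Finset.sum_le_sum fun a ha => Finset.sum_le_sum (h₄ a ha)
  have hfin := add_le_add (add_le_add (le_refl (∑ a ∈ P, f₁ a)) hs2)
    (add_le_add (le_refl (∑ _a ∈ P, ∑ _a' ∈ P, f₃)) hs4)
  refine hfin.trans (le_of_eq ?_)
  ring

/-- the final numerical inequality -/
theorem fin_num {C₁ C₂ C₃ C₄ Q Z N V An L4 p : ℝ} (hC₁ : 0 ≤ C₁) (hC₂ : 0 ≤ C₂)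
    (hC₄ : 0 ≤ C₄) (hQ : 0 < Q) (hZ : 0 ≤ Z) (hN : 0 < N) (hV : 0 < V) (hAn : 0 < An)
    (hL4 : 0 < L4) (hp : 0 ≤ p) :
    C₂ * Z * p * V * L4 + (p ^ 2 * (C₁ * Z * (V / An) * L4) + C₃ ^ 2 *
      (p * (Q * (C₄ * Z * (4 * L4 * (V + V ^ 2 / N)))) +
        p * (p * (Q * (C₄ * Z * (2 * L4 * (An * V / N + V / An + V ^ 2 / N))))))) ≤
    (C₁ + C₂ + C₃ ^ 2 * Q * 4 * C₄) * Z * (p * (V + V ^ 2 / N) +
      p ^ 2 * (V / An + An * V / N + V ^ 2 / N)) * L4 := by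
  rw [← sub_nonneg]
  have e5 : (C₁ + C₂ + C₃ ^ 2 * Q * 4 * C₄) * Z * (p * (V + V ^ 2 / N) +
      p ^ 2 * (V / An + An * V / N + V ^ 2 / N)) * L4 -
      (C₂ * Z * p * V * L4 + (p ^ 2 * (C₁ * Z * (V / An) * L4) + C₃ ^ 2 *
      (p * (Q * (C₄ * Z * (4 * L4 * (V + V ^ 2 / N)))) +
        p * (p * (Q * (C₄ * Z * (2 * L4 * (An * V / N + V / An + V ^ 2 / N)))))))) =
      Z * L4 * (p * (V + V ^ 2 / N) * C₁ + C₂ * p * (V ^ 2 / N) +
        p ^ 2 * (An * V / N + V ^ 2 / N) * C₁ +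
        p ^ 2 * (V / An + An * V / N + V ^ 2 / N) * C₂ +
        2 * (C₃ ^ 2 * Q * C₄) * p ^ 2 * (V / An + An * V / N + V ^ 2 / N)) := by ring
  rw [e5]
  positivity

/-- sums of real numbers -/
theorem comb_real {P : Finset ℕ} {x₁ x₃ x₂ x₄ C₃ : ℝ} (h₁ : 0 ≤ x₁) (h₃ : 0 ≤ x₃) (h₂ : 0 ≤ x₂)
    (h₄ : 0 ≤ x₄) : ENNReal.ofReal x₁ + (ENNReal.ofReal ((P.card : ℝ) ^ 2) * ENNReal.ofReal x₃ +
      ENNReal.ofReal (C₃ ^ 2) * (∑ _a ∈ P, ENNReal.ofReal x₂ +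
        ∑ _a ∈ P, ∑ _a' ∈ P, ENNReal.ofReal x₄)) =
      ENNReal.ofReal (x₁ + ((P.card : ℝ) ^ 2 * x₃ + C₃ ^ 2 * (P.card * x₂ +
        P.card * (P.card * x₄)))) := by
  have hcard : ∀ x : ℝ, 0 ≤ x → ∑ _a ∈ P, ENNReal.ofReal x =
      ENNReal.ofReal ((P.card : ℝ) * x) := by
    intro x _
    rw [Finset.sum_const, nsmul_eq_mul, ENNReal.ofReal_mul (Nat.cast_nonneg _),
      ENNReal.ofReal_natCast]
  rw [hcard _ h₂, hcard _ h₄, hcard _ (by positivity),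
    ← ENNReal.ofReal_add (by positivity) (by positivity),
    ← ENNReal.ofReal_mul (by positivity), ← ENNReal.ofReal_mul (by positivity),
    ← ENNReal.ofReal_add (by positivity) (by positivity),
    ← ENNReal.ofReal_add (by positivity) (by positivity)]

end N2

open scoped Classical in
theorem pf_P_N2 (hFM : P_FM) (hN1 : P_N1) (hCB : P_CB) (hCT : V_CT) : P_N2 := by
  intro n hn κ hκ hκ1
  obtain ⟨C₁, hC₁, h1⟩ := hFM n hn κ hκ hκ1
  obtain ⟨C₂, hC₂, h2⟩ := hN1 n hn κ hκ hκ1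
  obtain ⟨C₃, hC₃, h3⟩ := hCB n hn
  obtain ⟨C₄, hC₄, h4⟩ := hCT n hn κ hκ hκ1
  have hpi := Real.pi_pos
  set Q : ℝ := (2 * Real.pi) ^ n with hQ
  have hQ0 : 0 < Q := by positivity
  refine ⟨C₁ + C₂ + C₃ ^ 2 * Q * 4 * C₄, by positivity, ?_⟩
  intro K _ _ hK f hf ι _ M hM X hX H P A V τ₁ hH hA hV hP
  have hcop : ∀ a ∈ P, Ideal.span {(a : 𝓞 K)} ⊔ f = ⊤ := fun a ha => (hP a ha).2.2.2
  have hpc : ∀ a ∈ P, a.Prime ∧ Ideal.span {(a : 𝓞 K)} ⊔ f = ⊤ := fun a ha =>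
    ⟨(hP a ha).1, (hP a ha).2.2.2⟩
  have hHH : 1 ≤ HH H := one_le_HH hH
  have hHH0 : 0 < HH H := by linarith
  have hcw : 0 ≤ cw K := by unfold cw; positivity
  have hd0 : (0 : ℝ) < |(discr K : ℝ)| := abs_pos.2 (by exact_mod_cast discr_ne_zero K)
  have hd1 : (1 : ℝ) ≤ |(discr K : ℝ)| := by
    have h5 : (1 : ℤ) ≤ |discr K| := Int.one_le_abs (discr_ne_zero K)
    exact_mod_cast h5
  have hsq : 1 ≤ Real.sqrt |(discr K : ℝ)| := by
    rw [Real.one_le_sqrt]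
    exact hd1
  have hsq0 : 0 < Real.sqrt |(discr K : ℝ)| := by linarith
  have hN := N2.one_le_Nf hf
  have hN0 : 0 < Nf K f := by linarith
  have hA0 : 0 < A := by linarith
  have hAn : 1 ≤ A ^ n := one_le_pow₀ hA
  have hAn0 : 0 < A ^ n := by linarith
  have hVt := N2.Vt_pos H hH τ₁
  have hV0 : 0 < V := by rw [hV]; positivity
  set Z : ℝ := cw K * |(discr K : ℝ)| ^ ((1 + κ) / 2) with hZ
  have hZ0 : 0 ≤ Z := by positivity
  set L : ℝ := Nf K f * A ^ n * HH H * Real.exp |τ₁| with hL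
  have he1 : 1 ≤ Real.exp |τ₁| := Real.one_le_exp (abs_nonneg _)
  have hNA : Nf K f * A ^ n ≤ L := by
    rw [hL]
    calc Nf K f * A ^ n = Nf K f * A ^ n * 1 * 1 := by ring
      _ ≤ Nf K f * A ^ n * HH H * Real.exp |τ₁| := by gcongr
  have hL1 : 1 ≤ L := le_trans (one_le_mul_of_one_le_of_one_le hN hAn) hNA
  have hL0 : 0 < L := by linarith
  have hLκ : L ^ κ ≤ L ^ (4 * κ) := Real.rpow_le_rpow_of_exponent_le hL1 (by linarith)
  set p : ℝ := (P.card : ℝ) with hp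
  have hp0 : 0 ≤ p := Nat.cast_nonneg _
  -- the four functions
  set F₁ : ι → ℝ → logSpace K → (InfinitePlace K → ℝ) → ℝ≥0∞ := fun c τ z θ =>
    ∑ r ∈ X c, ∑ a ∈ P, nu K f (M c) H a (yM K (M c) τ z) (om true θ) r with hF₁
  set F₃ : ι → ℝ → logSpace K → (InfinitePlace K → ℝ) → ℝ≥0∞ := fun c τ z θ =>
    nn K (M c) H (yM K (M c) τ z) (om true θ) with hF₃
  set F₂ : ℕ → ι → ℝ → logSpace K → (InfinitePlace K → ℝ) → ℝ≥0∞ := fun a c τ z _ =>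
    N2.tq ((f : FI K) * M c) (M c) (N2.sh H (Real.log a)) (N2.sh H (Real.log a)) (z, τ) with hF₂
  set F₄ : ℕ → ℕ → ι → ℝ → logSpace K → (InfinitePlace K → ℝ) → ℝ≥0∞ := fun a a' c τ z _ =>
    N2.tq ((f : FI K) * M c) (M c) (N2.sh H (Real.log (a * a'))) (N2.sh H 0) (z, τ) with hF₄
  have hJ₁ : N2.JM F₁ := fun c => by
    refine Finset.measurable_fun_sum _ fun r _ => Finset.measurable_fun_sum _ fun a _ => ?_
    exact (pf_P_MN K f (M c) H a r (hM.1 c) hH).2.1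
  have hJ₃ : N2.JM F₃ := fun c => (pf_P_MN K f (M c) H 0 0 (hM.1 c) hH).1
  have hJ₂ : ∀ a, N2.JM (F₂ a) := fun a => N2.tq_JM (fun c => (f : FI K) * M c) M _ _
  have hJ₄ : ∀ a a', N2.JM (F₄ a a') := fun a a' => N2.tq_JM (fun c => (f : FI K) * M c) M _ _
  -- the pointwise inequality
  have hpw : ∀ c τ z θ, ∑ r ∈ X c,
      (∑ a ∈ P, nu K f (M c) H a (yM K (M c) τ z) (om true θ) r) ^ 2 ≤
      F₁ c τ z θ + (ENNReal.ofReal (p ^ 2) * F₃ c τ z θ + ENNReal.ofReal (C₃ ^ 2) *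
        (∑ a ∈ P, F₂ a c τ z θ + ∑ a ∈ P, ∑ a' ∈ P, F₄ a a' c τ z θ)) := by
    intro c τ z θ
    have hne : (f : FI K) * M c ≠ 0 :=
      mul_ne_zero (FractionalIdeal.coeIdeal_ne_zero.2 hf) (hM.1 c)
    have hB : ∀ y : InfinitePlace K → ℝ, (Bx K (M c) y).Finite := fun y =>
      (h3 K hK (M c) y (hM.1 c)).1
    have hBf : ∀ y : InfinitePlace K → ℝ, (Bx K ((f : FI K) * M c) y).Finite := fun y =>
      (h3 K hK _ y hne).1
    refine (N2.pw (hX c) hB hBf H hH (yM K (M c) τ z) (Pos_om true θ) P hpc).trans ?_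
    have e1 : F₁ c τ z θ = ∑ a ∈ P, nn K (M c) H (N2.ya (yM K (M c) τ z) a) (om true θ) := by
      rw [hF₁]
      simp only
      rw [Finset.sum_comm]
      exact Finset.sum_congr rfl fun a ha => FM.nu_sum (hX c) H (hcop a ha) _ _
    rw [e1]
    have hA2 : ∀ a ∈ P, ENNReal.ofReal ((cb K ((f : FI K) * M c)
        (fun v => N2.ya (yM K (M c) τ z) a v + N2.sh H 0 v) - 1) *
        cb K (M c) (fun v => N2.ya (yM K (M c) τ z) a v + N2.sh H 0 v)) ≤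
        ENNReal.ofReal (C₃ ^ 2) * F₂ a c τ z θ := by
      intro a _
      rw [N2.ya_sh]
      obtain ⟨-, g1, g2, -⟩ := h3 K hK ((f : FI K) * M c)
        (fun v => yM K (M c) τ z v + N2.sh H (Real.log a) v) hne
      obtain ⟨-, g3, -, g4, -⟩ := h3 K hK (M c)
        (fun v => yM K (M c) τ z v + N2.sh H (Real.log a) v) (hM.1 c)
      exact N2.cb_th hC₃ _ _ _ _ ⟨g1, g2⟩ ⟨g3, g4⟩
    have hA4 : ∀ a ∈ P, ∀ a' ∈ P, ENNReal.ofReal ((cb K ((f : FI K) * M c)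
        (fun v => yM K (M c) τ z v + N2.sh H (Real.log (a * a')) v) - 1) *
        cb K (M c) (fun v => yM K (M c) τ z v + N2.sh H 0 v)) ≤
        ENNReal.ofReal (C₃ ^ 2) * F₄ a a' c τ z θ := by
      intro a _ a' _
      obtain ⟨-, g1, g2, -⟩ := h3 K hK ((f : FI K) * M c)
        (fun v => yM K (M c) τ z v + N2.sh H (Real.log (a * a')) v) hne
      obtain ⟨-, g3, -, g4, -⟩ := h3 K hK (M c)
        (fun v => yM K (M c) τ z v + N2.sh H 0 v) (hM.1 c)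
      exact N2.cb_th hC₃ _ _ _ _ ⟨g1, g2⟩ ⟨g3, g4⟩
    exact N2.arr P _ _ _ _ _ _ _ hA2 hA4
  -- the bounds for the four integrals
  have b1 : N2.II τ₁ F₁ ≤ ENNReal.ofReal (C₂ * Z * p * V * L ^ (4 * κ)) := by
    refine (h2 K hK f hf ι M hM X hX H P A τ₁ hH hA hP).trans (ENNReal.ofReal_le_ofReal ?_)
    rw [← hV]
    refine mul_le_mul_of_nonneg_left (le_trans ?_ hLκ) (by positivity)
    refine Real.rpow_le_rpow (by positivity) ?_ hκ.le
    rw [hL]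
    calc A ^ n * HH H * Real.exp |τ₁| = 1 * (A ^ n * HH H * Real.exp |τ₁|) := by ring
      _ ≤ Nf K f * (A ^ n * HH H * Real.exp |τ₁|) := by gcongr
      _ = _ := by ring
  have b3 : N2.II τ₁ F₃ ≤ ENNReal.ofReal (C₁ * Z * (V / A ^ n) * L ^ (4 * κ)) := by
    refine (h1 K hK ι M hM H τ₁ hH).trans (ENNReal.ofReal_le_ofReal ?_)
    have hw0 : 0 < Real.exp (-τ₁) / Real.sqrt |(discr K : ℝ)| := by positivity
    have hwL : Real.exp (-τ₁) / Real.sqrt |(discr K : ℝ)| ≤ L := by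
      have h5 : Real.exp (-τ₁) ≤ Real.exp |τ₁| := Real.exp_le_exp.2 (neg_le_abs τ₁)
      calc Real.exp (-τ₁) / Real.sqrt |(discr K : ℝ)| ≤ Real.exp (-τ₁) :=
            div_le_self (Real.exp_pos _).le hsq
        _ ≤ 1 * 1 * 1 * Real.exp |τ₁| := by linarith
        _ ≤ Nf K f * A ^ n * HH H * Real.exp |τ₁| := by gcongr
    rw [Real.rpow_add hw0, Real.rpow_one]
    have e3 : V / A ^ n = (HH H)⁻¹ * (Real.exp (-τ₁) / Real.sqrt |(discr K : ℝ)|) := by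
      rw [hV]
      unfold Vt
      field_simp
    rw [e3]
    calc C₁ * Z * (HH H)⁻¹ * (Real.exp (-τ₁) / Real.sqrt |(discr K : ℝ)| *
          (Real.exp (-τ₁) / Real.sqrt |(discr K : ℝ)|) ^ κ)
        = C₁ * Z * ((HH H)⁻¹ * (Real.exp (-τ₁) / Real.sqrt |(discr K : ℝ)|)) *
          (Real.exp (-τ₁) / Real.sqrt |(discr K : ℝ)|) ^ κ := by ring
      _ ≤ C₁ * Z * ((HH H)⁻¹ * (Real.exp (-τ₁) / Real.sqrt |(discr K : ℝ)|)) *
          L ^ (4 * κ) := by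
          refine mul_le_mul_of_nonneg_left (le_trans ?_ hLκ) (by positivity)
          exact Real.rpow_le_rpow hw0.le hwL hκ.le
  set RA : ℝ := 4 * L ^ (4 * κ) * (V + V ^ 2 / Nf K f) with hRA
  set RB : ℝ := 2 * L ^ (4 * κ) * (A ^ n * V / Nf K f + V / A ^ n + V ^ 2 / Nf K f) with hRB
  have hRA0 : 0 ≤ RA := by positivity
  have hRB0 : 0 ≤ RB := by positivity
  have b2 : ∀ a ∈ P, N2.II τ₁ (F₂ a) ≤ ENNReal.ofReal (Q * (C₄ * Z * RA)) := by
    intro a ha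
    refine N2.posn hC₄ h4 hK hM hf _ _ τ₁ RA fun τ hτ => ?_
    rw [hRA, hV]
    exact N2.numA hK hf H hH hκ hκ1 hA hτ (hP a ha).1.pos (hP a ha).2.2.1 hNA hL1
  have b4 : ∀ a ∈ P, ∀ a' ∈ P, N2.II τ₁ (F₄ a a') ≤ ENNReal.ofReal (Q * (C₄ * Z * RB)) := by
    intro a ha a' ha'
    refine N2.posn hC₄ h4 hK hM hf _ _ τ₁ RB fun τ hτ => ?_
    rw [hRB, hV]
    exact N2.numB hK hf H hH hκ hκ1 hA hτ (hP a ha).1.pos (hP a ha).2.2.1 (hP a' ha').1.pos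
      (hP a' ha').2.2.1 hNA hL1
  calc N2.II τ₁ (fun c τ z θ => ∑ r ∈ X c,
        (∑ a ∈ P, nu K f (M c) H a (yM K (M c) τ z) (om true θ) r) ^ 2)
      ≤ N2.II τ₁ (fun c τ z θ => F₁ c τ z θ + (ENNReal.ofReal (p ^ 2) * F₃ c τ z θ +
          ENNReal.ofReal (C₃ ^ 2) * (∑ a ∈ P, F₂ a c τ z θ +
            ∑ a ∈ P, ∑ a' ∈ P, F₄ a a' c τ z θ))) := N2.II_mono hpw
    _ = N2.II τ₁ F₁ + (ENNReal.ofReal (p ^ 2) * N2.II τ₁ F₃ + ENNReal.ofReal (C₃ ^ 2) *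
          (∑ a ∈ P, N2.II τ₁ (F₂ a) + ∑ a ∈ P, ∑ a' ∈ P, N2.II τ₁ (F₄ a a'))) := by
        have g1 : N2.JM (fun c τ z θ => ENNReal.ofReal (p ^ 2) * F₃ c τ z θ) := fun c =>
          (hJ₃ c).const_mul _
        have g2 : N2.JM (fun c τ z θ => ∑ a ∈ P, F₂ a c τ z θ) :=
          N2.JM_sum P fun a _ => hJ₂ a
        have g4 : ∀ a ∈ P, N2.JM (fun c τ z θ => ∑ a' ∈ P, F₄ a a' c τ z θ) := fun a _ =>
          N2.JM_sum P fun a' _ => hJ₄ a a'
        rw [N2.II_add hJ₁, N2.II_add g1, N2.II_const_mul ENNReal.ofReal_ne_top,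
          N2.II_const_mul ENNReal.ofReal_ne_top, N2.II_add g2, N2.II_sum P fun a _ => hJ₂ a,
          N2.II_sum P g4]
        congr 4
        exact Finset.sum_congr rfl fun a _ => N2.II_sum P fun a' _ => hJ₄ a a'
    _ ≤ ENNReal.ofReal (C₂ * Z * p * V * L ^ (4 * κ)) + (ENNReal.ofReal (p ^ 2) *
          ENNReal.ofReal (C₁ * Z * (V / A ^ n) * L ^ (4 * κ)) + ENNReal.ofReal (C₃ ^ 2) *
          (∑ _a ∈ P, ENNReal.ofReal (Q * (C₄ * Z * RA)) +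
            ∑ _a ∈ P, ∑ _a' ∈ P, ENNReal.ofReal (Q * (C₄ * Z * RB)))) := by
        gcongr with a ha a ha a' ha'
        · exact b2 a ha
        · exact b4 a ha a' ha'
    _ = ENNReal.ofReal (C₂ * Z * p * V * L ^ (4 * κ) + (p ^ 2 *
          (C₁ * Z * (V / A ^ n) * L ^ (4 * κ)) + C₃ ^ 2 * (p * (Q * (C₄ * Z * RA)) +
            p * (p * (Q * (C₄ * Z * RB)))))) := by
        exact N2.comb_real (by positivity) (by positivity) (by positivity) (by positivity)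
    _ ≤ _ := by
        refine ENNReal.ofReal_le_ofReal ?_
        rw [hRA, hRB]
        exact N2.fin_num hC₁ hC₂ hC₄ hQ0 hZ0 hN0 hV0 hAn0 (by positivity) hp0

end Pool.Agent.H23.BG
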